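import Mathlib
import Pool.Agent.TH314.PD.Core
import Pool.Agent.Y201.VL.Very

/-! # Project C3: cubic fourfolds and parametrizations of degree three (statements) -/

set_option autoImplicit false

namespace Pool.Agent.Y201.C3

open MvPolynomial Pool.Agent.TH314.PD

noncomputable section

/-- the trilinear form with coefficients `T` -/
def Bf (T : Fin 6 → Fin 6 → Fin 6 → ℂ) {R : Type} [CommRing R] [Algebra ℂ R]
    (x y z : Fin 6 → R) : R :=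
  ∑ i, ∑ j, ∑ k, algebraMap ℂ R (T i j k) * x i * y j * z k

/-- the cubic form with coefficients `T` -/
def frm (T : Fin 6 → Fin 6 → Fin 6 → ℂ) : MvPolynomial (Fin 6) ℂ := Bf T X X X

def SymT (T : Fin 6 → Fin 6 → Fin 6 → ℂ) : Prop :=
  ∀ i j k, T i j k = T j i k ∧ T i j k = T i k j

/-- smoothness: all the forms `B (e_i, z, z)` vanish at `z = 0` only -/
def SmoothT (T : Fin 6 → Fin 6 → Fin 6 → ℂ) : Prop :=
  ∀ z : Fin 6 → ℂ, (∀ i, ∑ j, ∑ k, T i j k * z j * z k = 0) → z = 0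

/-- no plane in the cubic -/
def NoPlaneT (T : Fin 6 → Fin 6 → Fin 6 → ℂ) : Prop :=
  ∀ v : Fin 3 → Fin 6 → ℂ, LinearIndependent ℂ v → ∃ i j k, Bf T (v i) (v j) (v k) ≠ 0

/-- the line spanned by the first two unit vectors is contained in the cubic -/
def LineT (T : Fin 6 → Fin 6 → Fin 6 → ℂ) : Prop :=
  ∀ i j k : Fin 6, i.val < 2 → j.val < 2 → k.val < 2 → T i j k = 0

/-- unit vectors -/
def E {R : Type} [CommRing R] (i : Fin 6) : Fin 6 → R := Pi.single i 1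

/-- the conic of the plane spanned by the line and `y`:
`Bf T w w w = V 2 * (Vᵀ A V)` for `w = V 0 * E 0 + V 1 * E 1 + V 2 * y` if `y 0 = y 1 = 0` -/
def cm (T : Fin 6 → Fin 6 → Fin 6 → ℂ) {R : Type} [CommRing R] [Algebra ℂ R] (y : Fin 6 → R) :
    Matrix (Fin 3) (Fin 3) R :=
  !![3 * Bf T (E 0) (E 0) y, 3 * Bf T (E 0) (E 1) y, algebraMap ℂ R (3 / 2) * Bf T (E 0) y y;
     3 * Bf T (E 0) (E 1) y, 3 * Bf T (E 1) (E 1) y, algebraMap ℂ R (3 / 2) * Bf T (E 1) y y;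
     algebraMap ℂ R (3 / 2) * Bf T (E 0) y y, algebraMap ℂ R (3 / 2) * Bf T (E 1) y y,
       Bf T y y y]

/-- the generic vector `(0, 0, X 0, X 1, X 2, X 3)` -/
def yy : Fin 6 → MvPolynomial (Fin 4) ℂ := ![0, 0, X 0, X 1, X 2, X 3]

/-! ## conics -/

/-- job CONIC -/
def S_CONIC : Prop :=
  ∀ (K M : Type) [Field K] [CharZero K] [Field M] [Algebra K M]
    (A : Matrix (Fin 3) (Fin 3) K), A.IsSymm →
    (∀ w : Fin 3 → K, ∑ i, ∑ j, w i * A i j * w j = 0 → w = 0) →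
    ¬ Algebra.IsAlgebraic K M →
    ∀ v : Fin 3 → M, ∑ i, ∑ j, v i * algebraMap K M (A i j) * v j = 0 →
    IntermediateField.adjoin K {z : M | ∃ i j, z = v i / v j} = ⊤ →
    (∀ z : M, IsAlgebraic K z → ∃ a : K, z = algebraMap K M a) ∧
    ∀ v' : Fin 3 → M, v' ≠ 0 → ∑ i, ∑ j, v' i * algebraMap K M (A i j) * v' j = 0 →
      Odd (Module.finrank (IntermediateField.adjoin K {z : M | ∃ i j, z = v' i / v' j}) M)

/-- job AN -/
def S_AN : Prop :=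
  ∀ A : Matrix (Fin 3) (Fin 3) (MvPolynomial (Fin 4) ℂ), A.IsSymm →
    ∀ η : Fin 4 → ℂ, (∃ i j, eval η (A i j) ≠ 0) →
    (∀ i j k l : Fin 3, eval η (A i k) * eval η (A j l) = eval η (A i l) * eval η (A j k)) →
    (∀ u : Fin 3 → ℂ, u ≠ 0 → (∀ i, ∑ j, eval η (A i j) * u j = 0) →
      ∃ l : Fin 4, eval η (pderiv l (∑ i, ∑ j, C (u i) * A i j * C (u j))) ≠ 0) →
    ∀ V : Fin 3 → MvPolynomial (Fin 4) ℂ, ∑ i, ∑ j, V i * A i j * V j = 0 → V = 0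

/-- job ETA -/
def S_ETA : Prop :=
  ∀ A : Matrix (Fin 3) (Fin 3) (MvPolynomial (Fin 4) ℂ), A.IsSymm →
    (∀ i j, eval 0 (A i j) = 0) →
    ∃ η : Fin 4 → ℂ, η ≠ 0 ∧
      ∀ i j k l : Fin 3, eval η (A i k) * eval η (A j l) = eval η (A i l) * eval η (A j k)

/-- job ANI (proved from `S_AN` and `S_ETA`) -/
def S_ANI : Prop :=
  ∀ T : Fin 6 → Fin 6 → Fin 6 → ℂ, SymT T → SmoothT T → NoPlaneT T → LineT T →
    ∀ V : Fin 3 → MvPolynomial (Fin 4) ℂ, ∑ i, ∑ j, V i * cm T yy i j * V j = 0 → V = 0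

/-- job CB (proved from `S_CONIC`) -/
def S_CB : Prop :=
  ∀ T : Fin 6 → Fin 6 → Fin 6 → ℂ, SymT T → LineT T →
    (∀ V : Fin 3 → MvPolynomial (Fin 4) ℂ, ∑ i, ∑ j, V i * cm T yy i j * V j = 0 → V = 0) →
    ∀ (M : Type) [Field M] [Algebra ℂ M], Algebra.trdeg ℂ M = 4 →
    ∀ x : Fin 6 → M, Bf T x x x = 0 →
    (∀ (e : ℕ) (H : MvPolynomial (Fin 4) ℂ), H.IsHomogeneous e →
      aeval (![x 2, x 3, x 4, x 5] : Fin 4 → M) H = 0 → H = 0) →
    ratioField x = ⊤ →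
    ∀ lam : Fin 6 → M, lam ≠ 0 → (∀ i : Fin 6, 2 ≤ i.val → lam i = 0) →
      Bf T lam lam x ≠ 0 ∧
      Odd (Module.finrank (ratioField fun i => Bf T lam lam x * x i - Bf T lam x x * lam i) M)

/-! ## very general cubic forms -/

/-- job SMOOTH -/
def S_SMOOTH : Prop :=
  ∀ F : MvPolynomial (Fin 6) ℂ, F.IsHomogeneous 3 →
    AlgebraicIndependent ℚ (fun m : VL.Ex (Fin 6) 3 => F.coeff (m : Fin 6 →₀ ℕ)) →
    ∀ z : Fin 6 → ℂ, (∀ i, eval z (pderiv i F) = 0) → z = 0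

/-- job NOPL -/
def S_NOPL : Prop :=
  ∀ F : MvPolynomial (Fin 6) ℂ, F.IsHomogeneous 3 →
    AlgebraicIndependent ℚ (fun m : VL.Ex (Fin 6) 3 => F.coeff (m : Fin 6 →₀ ℕ)) →
    ∀ v : Fin 3 → Fin 6 → ℂ, LinearIndependent ℂ v →
      ∃ c : Fin 3 → ℂ, eval (∑ i, c i • v i) F ≠ 0

/-- no family of lines of odd degree -/
def LineFree (F : MvPolynomial (Fin 6) ℂ) : Prop :=
  ∀ (M : Type) [Field M] [Algebra ℂ M], Algebra.trdeg ℂ M = 4 →
    ∀ (L : IntermediateField ℂ M) (t : M), Transcendental L t →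
    ∀ u w : Fin 6 → M, (∀ i, u i ∈ L) → (∀ i, w i ∈ L) →
      aeval (fun i => t * u i + w i) F = 0 →
      ¬ Odd (Module.finrank (ratioField fun i => t * u i + w i) M)

/-- job LINE -/
def S_LINE : Prop :=
  ∀ F : MvPolynomial (Fin 6) ℂ, F.IsHomogeneous 3 → F ≠ 0 →
    AlgebraicIndependent ℚ (fun m : VL.Ex (Fin 6) 3 => F.coeff (m : Fin 6 →₀ ℕ)) →
    (∀ (a b : ℕ) (A B : MvPolynomial (Fin 6) ℂ), A.IsHomogeneous a → B.IsHomogeneous b →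
      F ∣ A * B → F ∣ A ∨ F ∣ B) →
    LineFree F

/-! ## base points -/

/-- job BASE -/
def S_BASE : Prop :=
  ∀ (M : Type) [Field M] [Algebra ℂ M] (s : Fin 5 → M),
    (∀ (e : ℕ) (H : MvPolynomial (Fin 5) ℂ), H.IsHomogeneous e → aeval s H = 0 → H = 0) →
    ∀ F : MvPolynomial (Fin 6) ℂ, F.IsHomogeneous 3 → F ≠ 0 →
    ∀ G : Fin 6 → MvPolynomial (Fin 5) ℂ, (∀ i, (G i).IsHomogeneous 3) → aeval G F = 0 →
    (∀ i j, s i / s j ∈ ratioField fun l => aeval s (G l)) →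
    ∃ b : Fin 5 → ℂ, b ≠ 0 ∧ ∀ i, eval b (G i) = 0

end

end Pool.Agent.Y201.C3
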