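import Mathlib
import Pool.Agent.Y201.C3.Stm
import Pool.Agent.TH314.PD.Core2

/-! # Trilinear forms of cubic forms -/

set_option autoImplicit false
set_option linter.unusedSectionVars false

namespace Pool.Agent.Y201.C3

open MvPolynomial Pool.Agent.TH314.PD

noncomputable section

variable {σ : Type} [Fintype σ] [DecidableEq σ] {R : Type} [CommRing R] [Algebra ℂ R]

/-- the trilinear form with coefficients `T`, any index set -/
def Bg (T : σ → σ → σ → ℂ) (x y z : σ → R) : R :=
  ∑ i, ∑ j, ∑ k, algebraMap ℂ R (T i j k) * x i * y j * z k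

def SymG (T : σ → σ → σ → ℂ) : Prop :=
  ∀ i j k, T i j k = T j i k ∧ T i j k = T i k j

theorem Bf_eq (T : Fin 6 → Fin 6 → Fin 6 → ℂ) (x y z : Fin 6 → R) : Bf T x y z = Bg T x y z := rfl

theorem Bg_swap12 {T : σ → σ → σ → ℂ} (hT : SymG T) (x y z : σ → R) :
    Bg T x y z = Bg T y x z := by
  unfold Bg
  rw [Finset.sum_comm]
  refine Finset.sum_congr rfl fun i _ => Finset.sum_congr rfl fun j _ =>
    Finset.sum_congr rfl fun k _ => ?_
  rw [(hT j i k).1]
  ring

theorem Bg_swap23 {T : σ → σ → σ → ℂ} (hT : SymG T) (x y z : σ → R) :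
    Bg T x y z = Bg T x z y := by
  unfold Bg
  refine Finset.sum_congr rfl fun i _ => ?_
  rw [Finset.sum_comm]
  refine Finset.sum_congr rfl fun j _ => Finset.sum_congr rfl fun k _ => ?_
  rw [(hT i k j).2]
  ring

theorem Bg_add1 (T : σ → σ → σ → ℂ) (x x' y z : σ → R) :
    Bg T (fun i => x i + x' i) y z = Bg T x y z + Bg T x' y z := by
  unfold Bg
  simp only [← Finset.sum_add_distrib]
  refine Finset.sum_congr rfl fun i _ => Finset.sum_congr rfl fun j _ =>
    Finset.sum_congr rfl fun k _ => ?_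
  ring

theorem Bg_smul1 (T : σ → σ → σ → ℂ) (c : R) (x y z : σ → R) :
    Bg T (fun i => c * x i) y z = c * Bg T x y z := by
  unfold Bg
  simp only [Finset.mul_sum]
  refine Finset.sum_congr rfl fun i _ => Finset.sum_congr rfl fun j _ =>
    Finset.sum_congr rfl fun k _ => ?_
  ring

theorem Bg_add2 (T : σ → σ → σ → ℂ) (x y y' z : σ → R) :
    Bg T x (fun i => y i + y' i) z = Bg T x y z + Bg T x y' z := by
  unfold Bg
  simp only [← Finset.sum_add_distrib]
  refine Finset.sum_congr rfl fun i _ => Finset.sum_congr rfl fun j _ =>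
    Finset.sum_congr rfl fun k _ => ?_
  ring

theorem Bg_smul2 (T : σ → σ → σ → ℂ) (c : R) (x y z : σ → R) :
    Bg T x (fun i => c * y i) z = c * Bg T x y z := by
  unfold Bg
  simp only [Finset.mul_sum]
  refine Finset.sum_congr rfl fun i _ => Finset.sum_congr rfl fun j _ =>
    Finset.sum_congr rfl fun k _ => ?_
  ring

theorem Bg_add3 (T : σ → σ → σ → ℂ) (x y z z' : σ → R) :
    Bg T x y (fun i => z i + z' i) = Bg T x y z + Bg T x y z' := by
  unfold Bg
  simp only [← Finset.sum_add_distrib]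
  refine Finset.sum_congr rfl fun i _ => Finset.sum_congr rfl fun j _ =>
    Finset.sum_congr rfl fun k _ => ?_
  ring

theorem Bg_smul3 (T : σ → σ → σ → ℂ) (c : R) (x y z : σ → R) :
    Bg T x y (fun i => c * z i) = c * Bg T x y z := by
  unfold Bg
  simp only [Finset.mul_sum]
  refine Finset.sum_congr rfl fun i _ => Finset.sum_congr rfl fun j _ =>
    Finset.sum_congr rfl fun k _ => ?_
  ring

theorem Bg_zero1 (T : σ → σ → σ → ℂ) (y z : σ → R) : Bg T (fun _ => 0) y z = 0 := by
  unfold Bg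
  simp

/-- sums in the first argument -/
theorem Bg_sum1 (T : σ → σ → σ → ℂ) {ι : Type} (s : Finset ι) (x : ι → σ → R) (y z : σ → R) :
    Bg T (fun i => ∑ a ∈ s, x a i) y z = ∑ a ∈ s, Bg T (x a) y z := by
  classical
  induction s using Finset.induction_on with
  | empty => simp only [Finset.sum_empty, Bg_zero1]
  | insert a s ha ih =>
    simp only [Finset.sum_insert ha]
    rw [Bg_add1, ih]

theorem Bg_sum2 {T : σ → σ → σ → ℂ} (hT : SymG T) {ι : Type} (s : Finset ι) (x : ι → σ → R)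
    (y z : σ → R) :
    Bg T y (fun i => ∑ a ∈ s, x a i) z = ∑ a ∈ s, Bg T y (x a) z := by
  rw [Bg_swap12 hT, Bg_sum1]
  exact Finset.sum_congr rfl fun a _ => Bg_swap12 hT _ _ _

theorem Bg_sum3 {T : σ → σ → σ → ℂ} (hT : SymG T) {ι : Type} (s : Finset ι) (x : ι → σ → R)
    (y z : σ → R) :
    Bg T y z (fun i => ∑ a ∈ s, x a i) = ∑ a ∈ s, Bg T y z (x a) := by
  rw [Bg_swap23 hT, Bg_sum2 hT]
  exact Finset.sum_congr rfl fun a _ => Bg_swap23 hT _ _ _

theorem aeval_frmG (T : σ → σ → σ → ℂ) (x : σ → R) :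
    aeval x (Bg T X X X : MvPolynomial σ ℂ) = Bg T x x x := by
  unfold Bg
  simp only [map_sum, map_mul, aeval_X, AlgHom.commutes]

theorem map_Bg {R' : Type} [CommRing R'] [Algebra ℂ R'] (φ : R →ₐ[ℂ] R') (T : σ → σ → σ → ℂ)
    (x y z : σ → R) : φ (Bg T x y z) = Bg T (fun i => φ (x i)) (fun i => φ (y i))
      (fun i => φ (z i)) := by
  unfold Bg
  simp only [map_sum, map_mul, AlgHom.commutes]

/-- every cubic form has a symmetric trilinear form -/
theorem exists_tri (F : MvPolynomial σ ℂ) (hF : F.IsHomogeneous 3) :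
    ∃ T : σ → σ → σ → ℂ, SymG T ∧ F = Bg T X X X := by
  have h1 : ∀ i, (pderiv i F).IsHomogeneous 2 := fun i => by
    have := hF.pderiv (i := i)
    exact this
  have h2 : ∀ i j, (pderiv j (pderiv i F)).IsHomogeneous 1 := fun i j => by
    have := (h1 i).pderiv (i := j)
    exact this
  have h3 : ∀ i j k, (pderiv k (pderiv j (pderiv i F))).IsHomogeneous 0 := fun i j k => by
    have := (h2 i j).pderiv (i := k)
    exact this
  have h4 : ∀ i j k, ∃ c : ℂ, pderiv k (pderiv j (pderiv i F)) = C c := fun i j k => by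
    have h5 := (h3 i j k).totalDegree_le
    rw [Nat.le_zero, totalDegree_eq_zero_iff_eq_C] at h5
    exact ⟨_, h5⟩
  choose c hc using h4
  have e3 : ∀ i j, pderiv j (pderiv i F) = ∑ k, X k * C (c i j k) := fun i j => by
    have := (h2 i j).sum_X_mul_pderiv
    rw [one_smul] at this
    rw [← this]
    exact Finset.sum_congr rfl fun k _ => by rw [hc]
  have e2 : ∀ i, (2 : MvPolynomial σ ℂ) * pderiv i F = ∑ j, X j * ∑ k, X k * C (c i j k) :=
    fun i => by
      have := (h1 i).sum_X_mul_pderiv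
      rw [nsmul_eq_mul] at this
      rw [show (2 : MvPolynomial σ ℂ) = ((2 : ℕ) : MvPolynomial σ ℂ) by norm_num, ← this]
      exact Finset.sum_congr rfl fun j _ => by rw [e3]
  have e1 : (3 : MvPolynomial σ ℂ) * F = ∑ i, X i * pderiv i F := by
    have := hF.sum_X_mul_pderiv
    rw [nsmul_eq_mul] at this
    rw [show (3 : MvPolynomial σ ℂ) = ((3 : ℕ) : MvPolynomial σ ℂ) by norm_num, ← this]
  have hcomm : ∀ i j (p : MvPolynomial σ ℂ), pderiv i (pderiv j p) = pderiv j (pderiv i p) :=
    fun i j p => pderiv_comm' i j p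
  refine ⟨fun i j k => c i j k / 6, fun i j k => ⟨?_, ?_⟩, ?_⟩
  · have : C (c i j k) = (C (c j i k) : MvPolynomial σ ℂ) := by
      rw [← hc, ← hc, hcomm j i]
    change c i j k / 6 = c j i k / 6
    rw [C_injective _ _ this]
  · have : C (c i j k) = (C (c i k j) : MvPolynomial σ ℂ) := by
      rw [← hc, ← hc, hcomm k j]
    change c i j k / 6 = c i k j / 6
    rw [C_injective _ _ this]
  · have h6 : (6 : MvPolynomial σ ℂ) * F = ∑ i, X i * ∑ j, X j * ∑ k, X k * C (c i j k) := by
      calc (6 : MvPolynomial σ ℂ) * F = 2 * (3 * F) := by ring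
        _ = ∑ i, X i * (2 * pderiv i F) := by
          rw [e1, Finset.mul_sum]
          exact Finset.sum_congr rfl fun i _ => by ring
        _ = _ := Finset.sum_congr rfl fun i _ => by rw [e2]
    have h7 : (6 : MvPolynomial σ ℂ) * Bg (fun i j k => c i j k / 6) X X X =
        ∑ i, X i * ∑ j, X j * ∑ k, X k * C (c i j k) := by
      unfold Bg
      simp only [Finset.mul_sum]
      refine Finset.sum_congr rfl fun i _ => Finset.sum_congr rfl fun j _ =>
        Finset.sum_congr rfl fun k _ => ?_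
      have h8 : (C (c i j k) : MvPolynomial σ ℂ) = 6 * C (c i j k / 6) := by
        rw [show (6 : MvPolynomial σ ℂ) = C 6 from (map_ofNat C 6).symm, ← C_mul]
        congr 1
        ring
      rw [h8, algebraMap_eq]
      ring
    have h9 : (6 : MvPolynomial σ ℂ) ≠ 0 := by
      rw [show (6 : MvPolynomial σ ℂ) = C 6 from (map_ofNat C 6).symm]
      intro h
      have := C_injective _ _ (h.trans C_0.symm)
      norm_num at this
    exact mul_left_cancel₀ h9 (h6.trans h7.symm)

theorem pderiv_frmG {T : σ → σ → σ → ℂ} (hT : SymG T) (l : σ) (z : σ → R) :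
    aeval z (pderiv l (Bg T X X X : MvPolynomial σ ℂ)) =
      3 * Bg T (fun i => if i = l then 1 else 0) z z := by
  have h1 : ∀ i j k, pderiv l (algebraMap ℂ (MvPolynomial σ ℂ) (T i j k) * X i * X j * X k) =
      algebraMap ℂ (MvPolynomial σ ℂ) (T i j k) * (if i = l then 1 else 0) * X j * X k +
      algebraMap ℂ (MvPolynomial σ ℂ) (T i j k) * X i * (if j = l then 1 else 0) * X k +
      algebraMap ℂ (MvPolynomial σ ℂ) (T i j k) * X i * X j * (if k = l then 1 else 0) := by
    intro i j k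
    have h2 : ∀ a : σ, pderiv l (X a : MvPolynomial σ ℂ) = if a = l then 1 else 0 := by
      intro a
      rw [pderiv_X]
      simp only [Pi.single_apply]
    rw [pderiv_mul, pderiv_mul, pderiv_mul, h2, h2, h2, algebraMap_eq, pderiv_C]
    ring
  have h3 : pderiv l (Bg T X X X : MvPolynomial σ ℂ) =
      Bg T (fun i => if i = l then 1 else 0) X X + Bg T X (fun i => if i = l then 1 else 0) X +
      Bg T X X (fun i => if i = l then 1 else 0) := by
    unfold Bg
    simp only [map_sum, ← Finset.sum_add_distrib]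
    exact Finset.sum_congr rfl fun i _ => Finset.sum_congr rfl fun j _ =>
      Finset.sum_congr rfl fun k _ => h1 i j k
  rw [h3, Bg_swap23 hT X X, Bg_swap12 hT X _ X, map_add, map_add, map_Bg]
  have h4 : (fun i => aeval z ((fun i => if i = l then (1 : MvPolynomial σ ℂ) else 0) i)) =
      (fun i => if i = l then (1 : R) else 0) := by
    funext i
    by_cases h : i = l <;> simp [h]
  have h5 : (fun i => aeval z (X i : MvPolynomial σ ℂ)) = z := by
    funext i
    rw [aeval_X]
  rw [h4, h5]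
  ring

/-- polarization -/
theorem polar {T : σ → σ → σ → ℂ} (hT : SymG T) (h : ∀ x : σ → ℂ, Bg T x x x = 0)
    (x y z : σ → ℂ) : Bg T x y z = 0 := by
  have hexp : ∀ (a : ℂ) (x y : σ → ℂ), Bg T (fun i => x i + a * y i) (fun i => x i + a * y i)
      (fun i => x i + a * y i) = Bg T x x x + 3 * a * Bg T x x y + 3 * a ^ 2 * Bg T x y y +
        a ^ 3 * Bg T y y y := by
    intro a x y
    simp only [Bg_add1, Bg_add2, Bg_add3, Bg_smul1, Bg_smul2, Bg_smul3]
    rw [Bg_swap12 hT y x y, Bg_swap12 hT y x x, Bg_swap23 hT x y x, Bg_swap23 hT y y x,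
      Bg_swap12 hT y x y]
    ring
  have h2 : ∀ x y : σ → ℂ, Bg T x x y = 0 := by
    intro x y
    have e1 := hexp 1 x y
    have e2 := hexp (-1) x y
    rw [h, h, h] at e1 e2
    linear_combination (-1 / 6 : ℂ) * e1 + (1 / 6 : ℂ) * e2
  have hexp2 : ∀ (a : ℂ) (x y z : σ → ℂ), Bg T (fun i => x i + a * y i) (fun i => x i + a * y i)
      z = Bg T x x z + 2 * a * Bg T x y z + a ^ 2 * Bg T y y z := by
    intro a x y z
    simp only [Bg_add1, Bg_add2, Bg_smul1, Bg_smul2]
    rw [Bg_swap12 hT y x z]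
    ring
  have e1 := hexp2 1 x y z
  rw [h2, h2, h2] at e1
  linear_combination (-1 / 2 : ℂ) * e1

theorem T_eq {T : σ → σ → σ → ℂ} (i j k : σ) :
    T i j k = Bg T (fun a => if a = i then (1 : ℂ) else 0) (fun a => if a = j then (1 : ℂ) else 0)
      (fun a => if a = k then (1 : ℂ) else 0) := by
  unfold Bg
  simp [mul_ite, ite_mul, Finset.sum_ite_eq', Finset.sum_ite_eq]

/-- composition with linear forms -/
def comp {τ : Type} (T : σ → σ → σ → ℂ) (w : τ → σ → ℂ) (a b c : τ) : ℂ := Bg T (w a) (w b) (w c)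

theorem comp_sym {τ : Type} {T : σ → σ → σ → ℂ} (hT : SymG T) (w : τ → σ → ℂ) :
    SymG (comp T w) := fun _ _ _ => ⟨Bg_swap12 hT _ _ _, Bg_swap23 hT _ _ _⟩

theorem Bg_alg (T : σ → σ → σ → ℂ) (x y z : σ → ℂ) :
    Bg T (fun i => algebraMap ℂ R (x i)) (fun i => algebraMap ℂ R (y i))
      (fun i => algebraMap ℂ R (z i)) = algebraMap ℂ R (Bg T x y z) := by
  have := map_Bg (Algebra.ofId ℂ R) T x y z
  exact this.symm

theorem Bg_comp {τ : Type} [Fintype τ] [DecidableEq τ] {T : σ → σ → σ → ℂ} (hT : SymG T)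
    (w : τ → σ → ℂ) (x y z : τ → R) :
    Bg (comp T w) x y z = Bg T (fun i => ∑ a, x a * algebraMap ℂ R (w a i))
      (fun i => ∑ a, y a * algebraMap ℂ R (w a i)) (fun i => ∑ a, z a * algebraMap ℂ R (w a i)) := by
  rw [Bg_sum1]
  unfold Bg comp
  refine Finset.sum_congr rfl fun a _ => ?_
  have h1 : Bg T (fun i => x a * algebraMap ℂ R (w a i))
      (fun i => ∑ b, y b * algebraMap ℂ R (w b i)) (fun i => ∑ c, z c * algebraMap ℂ R (w c i)) =
      ∑ b, ∑ c, x a * (y b * (z c * algebraMap ℂ R (Bg T (w a) (w b) (w c)))) := by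
    rw [Bg_smul1, Bg_sum2 hT, Finset.mul_sum]
    refine Finset.sum_congr rfl fun b _ => ?_
    rw [Bg_smul2, Bg_sum3 hT, Finset.mul_sum, Finset.mul_sum]
    refine Finset.sum_congr rfl fun c _ => ?_
    rw [Bg_smul3, Bg_alg]
  refine Eq.trans ?_ h1.symm
  refine Finset.sum_congr rfl fun b _ => Finset.sum_congr rfl fun c _ => ?_
  ring

end

end Pool.Agent.Y201.C3
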