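import Mathlib
import Pool.Agent.Y201.C3.Tri

/-! # Project C3: the core argument -/

set_option autoImplicit false
set_option linter.unusedSectionVars false

namespace Pool.Agent.Y201.C3

open MvPolynomial Pool.Agent.TH314.PD

noncomputable section

section alg

variable {σ : Type} [Fintype σ] [DecidableEq σ] {R : Type} [CommRing R] [Algebra ℂ R]

theorem swap13 {T : σ → σ → σ → ℂ} (hT : SymG T) (x y z : σ → R) :
    Bg T x y z = Bg T z y x := by
  rw [Bg_swap12 hT, Bg_swap23 hT, Bg_swap12 hT]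

/-- `B(λ, λ, x)` for `x = t²λ + tQ + C` -/
theorem expand1 {T : σ → σ → σ → ℂ} (t : R) (a b c : σ → R) :
    Bg T a a (fun i => t ^ 2 * a i + t * b i + c i) =
      t ^ 2 * Bg T a a a + t * Bg T a a b + Bg T a a c := by
  rw [Bg_add3, Bg_add3 T a a (fun i => t ^ 2 * a i), Bg_smul3, Bg_smul3]

theorem expand2 {T : σ → σ → σ → ℂ} (hT : SymG T) (t : R) (a b c : σ → R) :
    Bg T a (fun i => t ^ 2 * a i + t * b i + c i) (fun i => t ^ 2 * a i + t * b i + c i) =
      t ^ 4 * Bg T a a a + 2 * t ^ 3 * Bg T a a b + t ^ 2 * (2 * Bg T a a c + Bg T a b b) +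
        2 * t * Bg T a b c + Bg T a c c := by
  simp only [Bg_add2, Bg_add3, Bg_smul2, Bg_smul3]
  rw [Bg_swap23 hT a b a, Bg_swap23 hT a c a, Bg_swap23 hT a c b]
  ring

theorem expand3 {T : σ → σ → σ → ℂ} (hT : SymG T) (t : R) (a b c : σ → R) :
    Bg T (fun i => t ^ 2 * a i + t * b i + c i) (fun i => t ^ 2 * a i + t * b i + c i)
      (fun i => t ^ 2 * a i + t * b i + c i) =
      t ^ 6 * Bg T a a a + t ^ 5 * (3 * Bg T a a b) + t ^ 4 * (3 * Bg T a a c + 3 * Bg T a b b) +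
        t ^ 3 * (6 * Bg T a b c + Bg T b b b) + t ^ 2 * (3 * Bg T a c c + 3 * Bg T b b c) +
        t * (3 * Bg T b c c) + Bg T c c c := by
  simp only [Bg_add1, Bg_add2, Bg_add3, Bg_smul1, Bg_smul2, Bg_smul3]
  rw [swap13 hT b a a, Bg_swap23 hT a b a, swap13 hT c a a, Bg_swap23 hT a c a,
    Bg_swap12 hT b a b, swap13 hT b b a, Bg_swap23 hT a c b, Bg_swap12 hT b a c,
    swap13 hT c b a, Bg_swap12 hT c a b, Bg_swap23 hT a c b,
    Bg_swap12 hT b c a, swap13 hT c b a, Bg_swap12 hT c a c, swap13 hT c c a,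
    Bg_swap23 hT b c b, swap13 hT c b b, Bg_swap12 hT c b c, swap13 hT c c b]
  ring

/-- the third intersection point of the line through `a` and `x` -/
theorem third {T : σ → σ → σ → ℂ} (hT : SymG T) (a x : σ → R) (ha : Bg T a a a = 0)
    (hx : Bg T x x x = 0) (x' : σ → R)
    (hx' : x' = fun i => Bg T a a x * x i + (-Bg T a x x) * a i) :
    Bg T x' x' x' = 0 ∧ Bg T a a x' = Bg T a a x ^ 2 ∧
      Bg T a x' x' = -(Bg T a a x ^ 2 * Bg T a x x) := by
  subst hx'
  refine ⟨?_, ?_, ?_⟩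
  · simp only [Bg_add1, Bg_add2, Bg_add3, Bg_smul1, Bg_smul2, Bg_smul3]
    rw [hx, ha, swap13 hT x a a, Bg_swap23 hT a x a, Bg_swap12 hT x a x, swap13 hT x x a]
    ring
  · rw [Bg_add3, Bg_smul3, Bg_smul3, ha]
    ring
  · simp only [Bg_add2, Bg_add3, Bg_smul2, Bg_smul3]
    rw [ha, Bg_swap23 hT a x a]
    ring

end alg

section field

variable {M : Type} [Field M] [Algebra ℂ M]

/-- comparison of coefficients -/
theorem coeffs_zero (L : IntermediateField ℂ M) (t : M) (ht : Transcendental L t)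
    {n : ℕ} (c : Fin n → M) (hc : ∀ i, c i ∈ L) (h : ∑ i, c i * t ^ (i : ℕ) = 0) :
    ∀ i, c i = 0 := by
  let p : Polynomial L := ∑ i : Fin n, Polynomial.C (⟨c i, hc i⟩ : L) * Polynomial.X ^ (i : ℕ)
  have hp : Polynomial.aeval t p = 0 := by
    simp only [p, map_sum, map_mul, map_pow, Polynomial.aeval_X, Polynomial.aeval_C]
    exact h
  have hp0 : p = 0 := by
    by_contra h0
    exact ht ⟨p, h0, hp⟩
  intro i
  have h1 : p.coeff (i : ℕ) = ⟨c i, hc i⟩ := by
    simp only [p, Polynomial.finsetSum_coeff, Polynomial.coeff_C_mul, Polynomial.coeff_X_pow]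
    rw [Finset.sum_eq_single i]
    · simp
    · intro j _ hj
      rw [if_neg, mul_zero]
      intro h2
      exact hj (Fin.ext h2.symm)
    · intro h2
      exact absurd (Finset.mem_univ _) h2
  rw [hp0, Polynomial.coeff_zero] at h1
  exact (congrArg Subtype.val h1).symm

theorem Bg_mem {σ : Type} [Fintype σ] [DecidableEq σ] (L : IntermediateField ℂ M)
    (T : σ → σ → σ → ℂ) (x y z : σ → M) (hx : ∀ i, x i ∈ L) (hy : ∀ i, y i ∈ L)
    (hz : ∀ i, z i ∈ L) : Bg T x y z ∈ L := by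
  unfold Bg
  exact sum_mem fun i _ => sum_mem fun j _ => sum_mem fun k _ =>
    mul_mem (mul_mem (mul_mem (L.algebraMap_mem _) (hx i)) (hy j)) (hz k)

/-- the ratio field does not change under scaling -/
theorem ratio_smul {m : ℕ} (c : M) (hc : c ≠ 0) (x : Fin m → M) :
    ratioField (fun i => c * x i) = ratioField x := by
  unfold ratioField
  congr 1
  ext z
  constructor
  · rintro ⟨i, j, rfl⟩
    exact ⟨i, j, mul_div_mul_left _ _ hc⟩
  · rintro ⟨i, j, rfl⟩
    exact ⟨i, j, (mul_div_mul_left _ _ hc).symm⟩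

theorem ratio_le {m n : ℕ} (x : Fin m → M) (y : Fin n → M) {e : ℕ}
    (hx : ∃ b, x b ≠ 0) (H : Fin n → MvPolynomial (Fin m) ℂ) (hH : ∀ i, (H i).IsHomogeneous e)
    (h : ∀ i, y i = aeval x (H i)) : ratioField y ≤ ratioField x := by
  unfold ratioField
  rw [IntermediateField.adjoin_le_iff]
  rintro z ⟨i, j, rfl⟩
  rw [h, h]
  exact ratio_mem x hx (hH i) (hH j)

end field

end

end Pool.Agent.Y201.C3
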