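import Mathlib
import Pool.Agent.Y201.C3.Core

/-! # Project C3: linear changes of coordinates -/

set_option autoImplicit false
set_option linter.unusedSectionVars false

namespace Pool.Agent.Y201.C3

open MvPolynomial Pool.Agent.TH314.PD

noncomputable section

/-- the row vector `x` times the matrix `N` -/
def co {m : ℕ} (N : Matrix (Fin m) (Fin m) ℂ) {R : Type} [CommRing R] [Algebra ℂ R]
    (x : Fin m → R) : Fin m → R :=
  fun a => ∑ i, x i * algebraMap ℂ R (N i a)

section

variable {m : ℕ} {R : Type} [CommRing R] [Algebra ℂ R]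

theorem co_co (P N : Matrix (Fin m) (Fin m) ℂ) (h : P * N = 1) (x : Fin m → R) :
    co N (co P x) = x := by
  funext a
  unfold co
  simp only [Finset.sum_mul]
  rw [Finset.sum_comm]
  have h1 : ∀ i, ∑ j, x i * algebraMap ℂ R (P i j) * algebraMap ℂ R (N j a) =
      x i * algebraMap ℂ R ((P * N) i a) := by
    intro i
    rw [Matrix.mul_apply, map_sum, Finset.mul_sum]
    exact Finset.sum_congr rfl fun j _ => by rw [map_mul]; ring
  rw [Finset.sum_congr rfl fun i _ => h1 i, h, Finset.sum_eq_single a]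
  · simp
  · intro b _ hb
    rw [Matrix.one_apply_ne hb, map_zero, mul_zero]
  · intro h2
    exact absurd (Finset.mem_univ _) h2

theorem co_map {R' : Type} [CommRing R'] [Algebra ℂ R'] (φ : R →ₐ[ℂ] R')
    (N : Matrix (Fin m) (Fin m) ℂ) (x : Fin m → R) :
    (fun a => φ (co N x a)) = co N (fun i => φ (x i)) := by
  funext a
  unfold co
  simp only [map_sum, map_mul, AlgHom.commutes]

/-- substitution -/
def su (P : Matrix (Fin m) (Fin m) ℂ) : MvPolynomial (Fin m) ℂ →ₐ[ℂ] MvPolynomial (Fin m) ℂ :=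
  aeval (co P X)

theorem aeval_su (P : Matrix (Fin m) (Fin m) ℂ) (z : Fin m → R) (F : MvPolynomial (Fin m) ℂ) :
    aeval z (su P F) = aeval (co P z) F := by
  have h : (aeval z).comp (su P) = (aeval (co P z) : MvPolynomial (Fin m) ℂ →ₐ[ℂ] R) := by
    apply algHom_ext
    intro i
    rw [AlgHom.comp_apply, su, aeval_X, aeval_X]
    have := congrFun (co_map (aeval z : MvPolynomial (Fin m) ℂ →ₐ[ℂ] R) P X) i
    rw [this]
    congr 1
    funext j
    rw [aeval_X]
  rw [← h, AlgHom.comp_apply]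

theorem su_su (P N : Matrix (Fin m) (Fin m) ℂ) (h : P * N = 1) (F : MvPolynomial (Fin m) ℂ) :
    su P (su N F) = F := by
  have h1 := aeval_su N (co P (X : Fin m → MvPolynomial (Fin m) ℂ)) F
  rw [co_co P N h, aeval_X_left_apply] at h1
  exact h1

theorem co_hom (N : Matrix (Fin m) (Fin m) ℂ) (i : Fin m) :
    (co N (X : Fin m → MvPolynomial (Fin m) ℂ) i).IsHomogeneous 1 := by
  unfold co
  refine IsHomogeneous.sum _ _ _ fun j _ => ?_
  have h := (isHomogeneous_X ℂ j).mul (isHomogeneous_C (Fin m) (N j i))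
  exact h

theorem su_hom (N : Matrix (Fin m) (Fin m) ℂ) {F : MvPolynomial (Fin m) ℂ} {e : ℕ}
    (hF : F.IsHomogeneous e) : (su N F).IsHomogeneous e := by
  have h := hF.aeval (fun i => co N (X : Fin m → MvPolynomial (Fin m) ℂ) i) (n := 1)
    (fun i => co_hom N i)
  rw [one_mul] at h
  exact h

end

theorem ratio_co {M : Type} [Field M] [Algebra ℂ M] {m : ℕ} (P N : Matrix (Fin m) (Fin m) ℂ)
    (h : P * N = 1) (h' : N * P = 1) (x : Fin m → M) (hx : ∃ b, x b ≠ 0) :
    ratioField (co N x) = ratioField x := by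
  have hz : ∃ b, co N x b ≠ 0 := by
    by_contra hcon
    push Not at hcon
    obtain ⟨b, hb⟩ := hx
    apply hb
    have h1 : co P (co N x) b = 0 := by
      have h2 : co N x = fun _ => 0 := funext hcon
      rw [h2]
      unfold co
      simp
    rw [co_co N P h'] at h1
    exact h1
  apply le_antisymm
  · exact ratio_le x (co N x) hx (co N X) (co_hom N) (fun i => by
      have := congrFun (co_map (aeval x : MvPolynomial (Fin m) ℂ →ₐ[ℂ] M) N X) i
      rw [this]
      congr 1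
      funext j
      rw [aeval_X])
  · exact ratio_le (co N x) x hz (co P X) (co_hom P) (fun i => by
      have := congrFun (co_map (aeval (co N x) : MvPolynomial (Fin m) ℂ →ₐ[ℂ] M) P X) i
      rw [this]
      have h2 : (fun i => (aeval (co N x)) (X i : MvPolynomial (Fin m) ℂ)) = co N x := by
        funext j
        rw [aeval_X]
      rw [h2, co_co N P h'])

/-- the form in the new coordinates -/
theorem Bf_co {T : Fin 6 → Fin 6 → Fin 6 → ℂ} (hT : SymT T) (P : Matrix (Fin 6) (Fin 6) ℂ)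
    {R : Type} [CommRing R] [Algebra ℂ R] (x y z : Fin 6 → R) :
    Bf (comp T P) x y z = Bf T (co P x) (co P y) (co P z) :=
  Bg_comp hT P x y z

theorem co_zero {m : ℕ} {R : Type} [CommRing R] [Algebra ℂ R] (N : Matrix (Fin m) (Fin m) ℂ) :
    co N (0 : Fin m → R) = 0 := by
  funext a
  unfold co
  simp

theorem smooth_iff {T : Fin 6 → Fin 6 → Fin 6 → ℂ} (z : Fin 6 → ℂ) (i : Fin 6) :
    ∑ j, ∑ k, T i j k * z j * z k = Bf T (fun a => if a = i then (1 : ℂ) else 0) z z := by
  symm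
  unfold Bf
  rw [Finset.sum_eq_single i]
  · simp
  · intro b _ hb
    simp [hb]
  · intro h
    exact absurd (Finset.mem_univ _) h

theorem unit_sum {m : ℕ} {R : Type} [CommRing R] (x : Fin m → R) :
    (fun i => ∑ a, x a * (if i = a then (1 : R) else 0)) = x := by
  funext i
  simp

theorem Bf_unit {T : Fin 6 → Fin 6 → Fin 6 → ℂ} (z : Fin 6 → ℂ)
    (h : ∀ i, Bf T (fun a => if a = i then (1 : ℂ) else 0) z z = 0) (v : Fin 6 → ℂ) :
    Bf T v z z = 0 := by
  rw [← unit_sum v, Bf_eq, Bg_sum1]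
  refine Finset.sum_eq_zero fun a _ => ?_
  rw [Bg_smul1, ← Bf_eq, h, mul_zero]

theorem smooth_co {T : Fin 6 → Fin 6 → Fin 6 → ℂ} (hT : SymT T) (hS : SmoothT T)
    (P N : Matrix (Fin 6) (Fin 6) ℂ) (h : P * N = 1) (h' : N * P = 1) : SmoothT (comp T P) := by
  intro z hz
  have h1 : ∀ v : Fin 6 → ℂ, Bf (comp T P) v z z = 0 :=
    Bf_unit z (fun i => by rw [← smooth_iff]; exact hz i)
  have h2 : co P z = 0 := by
    apply hS
    intro i
    rw [smooth_iff]
    have h3 := h1 (co N (fun a => if a = i then (1 : ℂ) else 0))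
    rw [Bf_co hT, co_co N P h'] at h3
    exact h3
  have h3 := co_co P N h z
  rw [h2, co_zero] at h3
  exact h3.symm

/-- `co` as a linear map -/
def coL {m : ℕ} (P : Matrix (Fin m) (Fin m) ℂ) : (Fin m → ℂ) →ₗ[ℂ] (Fin m → ℂ) where
  toFun := co P
  map_add' x y := by
    funext a
    unfold co
    simp only [Pi.add_apply, add_mul, Finset.sum_add_distrib]
  map_smul' c x := by
    funext a
    unfold co
    simp only [Pi.smul_apply, smul_eq_mul, RingHom.id_apply, Finset.mul_sum, mul_assoc]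

theorem noplane_co {T : Fin 6 → Fin 6 → Fin 6 → ℂ} (hT : SymT T) (hN : NoPlaneT T)
    (P N : Matrix (Fin 6) (Fin 6) ℂ) (h : P * N = 1) : NoPlaneT (comp T P) := by
  intro v hv
  have h1 : LinearIndependent ℂ (coL P ∘ v) := by
    refine hv.map' _ ?_
    rw [LinearMap.ker_eq_bot]
    exact Function.LeftInverse.injective (g := co N) (co_co P N h)
  obtain ⟨i, j, k, h2⟩ := hN _ h1
  refine ⟨i, j, k, ?_⟩
  rw [Bf_co hT]
  exact h2

theorem frm_co {T : Fin 6 → Fin 6 → Fin 6 → ℂ} (hT : SymT T) (P : Matrix (Fin 6) (Fin 6) ℂ) :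
    su P (frm T) = frm (comp T P) := by
  have h1 := Bf_co hT P (X : Fin 6 → MvPolynomial (Fin 6) ℂ) X X
  unfold frm
  rw [h1]
  exact aeval_frmG T (co P X)

theorem forms_co {T : Fin 6 → Fin 6 → Fin 6 → ℂ} (hT : SymT T)
    (P N : Matrix (Fin 6) (Fin 6) ℂ) (h : P * N = 1)
    {M : Type} [Field M] [Algebra ℂ M] (x : Fin 6 → M)
    (hx : ∀ (e : ℕ) (H : MvPolynomial (Fin 6) ℂ), H.IsHomogeneous e → aeval x H = 0 → frm T ∣ H)
    (e : ℕ) (H : MvPolynomial (Fin 6) ℂ) (hH : H.IsHomogeneous e) (h0 : aeval (co N x) H = 0) :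
    frm (comp T P) ∣ H := by
  have h1 : aeval x (su N H) = 0 := by rw [aeval_su, h0]
  have h2 := hx e _ (su_hom N hH) h1
  have h3 := map_dvd (su P) h2
  rw [frm_co hT, su_su P N h] at h3
  exact h3

/-- a smooth cubic form contains every variable -/
theorem degree_pos {T : Fin 6 → Fin 6 → Fin 6 → ℂ} (hT : SymT T) (hS : SmoothT T) :
    degreeOf 0 (frm T) ≠ 0 := by
  intro h
  have h1 : pderiv 0 (frm T) = 0 := by
    rw [pderiv_eq_zero_of_notMem_vars]
    rw [mem_vars_iff_degreeOf_ne_zero]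
    exact not_not.2 h
  have h2 : ∀ z : Fin 6 → ℂ, Bf T (fun a => if a = 0 then (1 : ℂ) else 0) z z = 0 := by
    intro z
    have h3 := pderiv_frmG hT 0 z
    change aeval z (pderiv 0 (frm T)) = _ at h3
    rw [h1, map_zero] at h3
    have h4 : (3 : ℂ) ≠ 0 := by norm_num
    exact (mul_eq_zero.1 h3.symm).resolve_left h4
  have h3 : ∀ y z : Fin 6 → ℂ, Bf T (fun a => if a = 0 then (1 : ℂ) else 0) y z = 0 := by
    intro y z
    have e1 := h2 (fun i => y i + z i)
    rw [Bf_eq, Bg_add2, Bg_add3, Bg_add3, ← Bf_eq, ← Bf_eq, ← Bf_eq, ← Bf_eq, h2 y, h2 z,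
      Bf_eq T _ z y, Bg_swap23 hT _ z y, ← Bf_eq] at e1
    linear_combination (1 / 2 : ℂ) * e1
  have h4 : (fun a => if a = 0 then (1 : ℂ) else 0) = (0 : Fin 6 → ℂ) := by
    apply hS
    intro i
    rw [smooth_iff, Bf_eq, Bg_swap12 hT, ← Bf_eq]
    exact h3 _ _
  have h5 := congrFun h4 0
  simp at h5

theorem forms_last {T : Fin 6 → Fin 6 → Fin 6 → ℂ} (hT : SymT T) (hS : SmoothT T)
    {M : Type} [Field M] [Algebra ℂ M] (z : Fin 6 → M)
    (hz : ∀ (e : ℕ) (H : MvPolynomial (Fin 6) ℂ), H.IsHomogeneous e → aeval z H = 0 → frm T ∣ H)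
    (e : ℕ) (H : MvPolynomial (Fin 4) ℂ) (hH : H.IsHomogeneous e)
    (h0 : aeval (![z 2, z 3, z 4, z 5] : Fin 4 → M) H = 0) : H = 0 := by
  by_contra hne
  let f : Fin 4 → Fin 6 := ![2, 3, 4, 5]
  have hf : Function.Injective f := by decide
  have h1 : aeval z (rename f H) = 0 := by
    rw [aeval_rename]
    have : z ∘ f = ![z 2, z 3, z 4, z 5] := by
      funext i
      fin_cases i <;> rfl
    rw [this, h0]
  obtain ⟨B, hB⟩ := hz e _ (IsHomogeneous.rename_isHomogeneous hH) h1
  have h2 : rename f H ≠ 0 := by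
    intro h
    exact hne (rename_injective _ hf (by rw [h, map_zero]))
  have hF0 : frm T ≠ 0 := by
    intro h
    rw [h, zero_mul] at hB
    exact h2 hB
  have hB0 : B ≠ 0 := by
    rintro rfl
    rw [mul_zero] at hB
    exact h2 hB
  have h3 : degreeOf 0 (rename f H) ≠ 0 := by
    rw [hB, degreeOf_mul_eq hF0 hB0]
    have := degree_pos hT hS
    omega
  rw [← mem_vars_iff_degreeOf_ne_zero] at h3
  obtain ⟨i, _, hi⟩ := mem_vars_rename _ _ h3
  revert hi
  fin_cases i <;> decide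

end

end Pool.Agent.Y201.C3
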