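import Mathlib
import Pool.Agent.Y201.C3.Coord

/-! # Project C3: a family of conics which start on a line -/

set_option autoImplicit false
set_option linter.unusedSectionVars false

namespace Pool.Agent.Y201.C3

open MvPolynomial Pool.Agent.TH314.PD

noncomputable section

/-- the third point moves on lines -/
theorem linear_case {T : Fin 6 → Fin 6 → Fin 6 → ℂ} (hT : SymT T)
    {M : Type} [Field M] [Algebra ℂ M] (L : IntermediateField ℂ M) (t : M)
    (ht : Transcendental L t) (lam Q Cc : Fin 6 → M) (hl : ∀ i, lam i ∈ L) (hQ : ∀ i, Q i ∈ L)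
    (hC : ∀ i, Cc i ∈ L) (x : Fin 6 → M) (hx : Bf T x x x = 0)
    (hexp : x = fun i => t ^ 2 * lam i + t * Q i + Cc i) :
    Bf T lam lam lam = 0 ∧
    ∃ u w : Fin 6 → M, (∀ i, u i ∈ L) ∧ (∀ i, w i ∈ L) ∧
      (fun i => Bf T lam lam x * x i - Bf T lam x x * lam i) = (fun i => t * u i + w i) ∧
      Bf T (fun i => t * u i + w i) (fun i => t * u i + w i) (fun i => t * u i + w i) = 0 := by
  have m1 : ∀ a b c : Fin 6 → M, (∀ i, a i ∈ L) → (∀ i, b i ∈ L) → (∀ i, c i ∈ L) →
      Bf T a b c ∈ L := fun a b c ha hb hc => Bg_mem L T a b c ha hb hc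
  have h3 : (3 : M) ≠ 0 := by
    have : ((3 : ℕ) : ℂ) ≠ 0 := by norm_num
    have h := (map_ne_zero (algebraMap ℂ M)).2 this
    rwa [map_natCast] at h
  have hexp3 := expand3 hT t lam Q Cc
  rw [← hexp] at hexp3
  change Bf T x x x = _ at hexp3
  rw [hx] at hexp3
  have three : ∀ z ∈ L, 3 * z ∈ L := fun z hz => mul_mem (by exact_mod_cast L.natCast_mem 3) hz
  have six : ∀ z ∈ L, 6 * z ∈ L := fun z hz => mul_mem (by exact_mod_cast L.natCast_mem 6) hz
  have hco := coeffs_zero L t ht (n := 7) ![Bf T Cc Cc Cc, 3 * Bf T Q Cc Cc,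
    3 * Bf T lam Cc Cc + 3 * Bf T Q Q Cc, 6 * Bf T lam Q Cc + Bf T Q Q Q,
    3 * Bf T lam lam Cc + 3 * Bf T lam Q Q, 3 * Bf T lam lam Q, Bf T lam lam lam] (by
      intro i
      fin_cases i
      · exact m1 _ _ _ hC hC hC
      · exact three _ (m1 _ _ _ hQ hC hC)
      · exact add_mem (three _ (m1 _ _ _ hl hC hC)) (three _ (m1 _ _ _ hQ hQ hC))
      · exact add_mem (six _ (m1 _ _ _ hl hQ hC)) (m1 _ _ _ hQ hQ hQ)
      · exact add_mem (three _ (m1 _ _ _ hl hl hC)) (three _ (m1 _ _ _ hl hQ hQ))
      · exact three _ (m1 _ _ _ hl hl hQ)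
      · exact m1 _ _ _ hl hl hl) (by
      rw [hexp3]
      simp [Fin.sum_univ_succ, Bf_eq]
      ring)
  have c6 : Bf T lam lam lam = 0 := hco 6
  have c5 : Bf T lam lam Q = 0 := (mul_eq_zero.1 (hco 5 : 3 * Bf T lam lam Q = 0)).resolve_left h3
  have c4 : Bf T lam lam Cc + Bf T lam Q Q = 0 := by
    have : 3 * (Bf T lam lam Cc + Bf T lam Q Q) = 0 := by
      rw [mul_add]
      exact hco 4
    exact (mul_eq_zero.1 this).resolve_left h3
  refine ⟨c6, ?_⟩
  have e1 : Bf T lam lam x = Bf T lam lam Cc := by
    have := expand1 (T := T) t lam Q Cc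
    rw [← hexp] at this
    rw [Bf_eq, this, ← Bf_eq, ← Bf_eq, ← Bf_eq, c6, c5]
    ring
  have e2 : Bf T lam x x = t ^ 2 * Bf T lam lam Cc + 2 * t * Bf T lam Q Cc + Bf T lam Cc Cc := by
    have := expand2 hT t lam Q Cc
    rw [← hexp] at this
    rw [Bf_eq, this]
    simp only [← Bf_eq]
    rw [c6, c5]
    have c4' : Bf T lam Q Q = -Bf T lam lam Cc := by linear_combination c4
    rw [c4']
    ring
  have e3 : (fun i => Bf T lam lam x * x i - Bf T lam x x * lam i) =
      (fun i => t * (Bf T lam lam Cc * Q i - 2 * Bf T lam Q Cc * lam i) +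
        (Bf T lam lam Cc * Cc i - Bf T lam Cc Cc * lam i)) := by
    funext i
    rw [e1, e2, hexp]
    ring
  refine ⟨fun i => Bf T lam lam Cc * Q i - 2 * Bf T lam Q Cc * lam i,
    fun i => Bf T lam lam Cc * Cc i - Bf T lam Cc Cc * lam i, ?_, ?_, e3, ?_⟩
  · intro i
    exact sub_mem (mul_mem (m1 _ _ _ hl hl hC) (hQ i))
      (mul_mem (mul_mem (by exact_mod_cast L.natCast_mem 2) (m1 _ _ _ hl hQ hC)) (hl i))
  · intro i
    exact sub_mem (mul_mem (m1 _ _ _ hl hl hC) (hC i)) (mul_mem (m1 _ _ _ hl hC hC) (hl i))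
  · rw [← e3]
    exact (third hT lam x c6 hx _ (by funext i; rw [Bf_eq, Bf_eq]; ring)).1

theorem sumExtend_inl {ι K V : Type*} [DivisionRing K] [AddCommGroup V] [Module K V] {v : ι → V}
    (hs : LinearIndependent K v) (i : ι) : Module.Basis.sumExtend hs (Sum.inl i) = v i := by
  classical
  simp [Module.Basis.sumExtend]
  rfl

/-- extension of two independent vectors to an invertible matrix -/
theorem exists_mat (p q : Fin 6 → ℂ) (h : LinearIndependent ℂ ![p, q]) :
    ∃ P N : Matrix (Fin 6) (Fin 6) ℂ, P * N = 1 ∧ N * P = 1 ∧ P 0 = p ∧ P 1 = q := by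
  classical
  let b := Module.Basis.sumExtend h
  have hcard : Nat.card (Fin 2 ⊕ Module.Basis.sumExtendIndex h) = 6 := by
    have := Module.finrank_eq_nat_card_basis b
    rw [← this]
    simp
  have hfin : Finite (Fin 2 ⊕ Module.Basis.sumExtendIndex h) :=
    Nat.finite_of_card_ne_zero (by rw [hcard]; norm_num)
  have hfin2 : Finite (Module.Basis.sumExtendIndex h) :=
    Finite.of_injective (Sum.inr : _ → Fin 2 ⊕ Module.Basis.sumExtendIndex h) Sum.inr_injective
  have hc4 : Nat.card (Module.Basis.sumExtendIndex h) = 4 := by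
    rw [Nat.card_sum, Nat.card_fin] at hcard
    omega
  let e : Module.Basis.sumExtendIndex h ≃ Fin 4 := Finite.equivFinOfCardEq hc4
  let b' : Module.Basis (Fin 6) ℂ (Fin 6 → ℂ) :=
    b.reindex ((Equiv.sumCongr (Equiv.refl (Fin 2)) e).trans finSumFinEquiv)
  have hb0 : b' 0 = p := by
    have : b' 0 = b (Sum.inl 0) := by
      simp only [b', Module.Basis.reindex_apply]
      rfl
    rw [this]
    exact sumExtend_inl h 0
  have hb1 : b' 1 = q := by
    have : b' 1 = b (Sum.inl 1) := by
      simp only [b', Module.Basis.reindex_apply]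
      rfl
    rw [this]
    exact sumExtend_inl h 1
  let P : Matrix (Fin 6) (Fin 6) ℂ := fun i => b' i
  have hP : IsUnit P := Matrix.linearIndependent_rows_iff_isUnit.1 b'.linearIndependent
  have hdet : IsUnit P.det := (Matrix.isUnit_iff_isUnit_det P).1 hP
  exact ⟨P, P⁻¹, Matrix.mul_nonsing_inv P hdet, Matrix.nonsing_inv_mul P hdet, hb0, hb1⟩

theorem frm_hom (T : Fin 6 → Fin 6 → Fin 6 → ℂ) : (frm T).IsHomogeneous 3 := by
  unfold frm Bf
  refine IsHomogeneous.sum _ _ _ fun i _ => IsHomogeneous.sum _ _ _ fun j _ =>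
    IsHomogeneous.sum _ _ _ fun k _ => ?_
  have h := (((isHomogeneous_C (Fin 6) (T i j k)).mul (isHomogeneous_X ℂ i)).mul
    (isHomogeneous_X ℂ j)).mul (isHomogeneous_X ℂ k)
  exact h

theorem aeval_frm {R : Type} [CommRing R] [Algebra ℂ R] (T : Fin 6 → Fin 6 → Fin 6 → ℂ)
    (x : Fin 6 → R) : aeval x (frm T) = Bf T x x x := aeval_frmG T x

/-- odd degree if the starting points lie over one point -/
theorem point_case {T : Fin 6 → Fin 6 → Fin 6 → ℂ} (hT : SymT T) (hS : SmoothT T)
    {M : Type} [Field M] [Algebra ℂ M] (x : Fin 6 → M) (hx : Bf T x x x = 0)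
    (hforms : ∀ (e : ℕ) (H : MvPolynomial (Fin 6) ℂ), H.IsHomogeneous e → aeval x H = 0 →
      frm T ∣ H) (p : Fin 6 → ℂ) (hp : p ≠ 0) (hpp : Bf T p p p = 0) (a : M) (ha : a ≠ 0)
    (lam : Fin 6 → M) (hlam : ∀ i, lam i = a * algebraMap ℂ M (p i)) :
    ratioField (fun i => Bf T lam lam x * x i - Bf T lam x x * lam i) = ratioField x := by
  set P : Fin 6 → M := fun i => algebraMap ℂ M (p i) with hP
  have hlam' : lam = fun i => a * P i := funext hlam
  have hPPP : Bf T P P P = 0 := by
    have h1 : Bf T P P P = algebraMap ℂ M (Bf T p p p) := Bg_alg T p p p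
    rw [h1, hpp, map_zero]
  have hF0 : frm T ≠ 0 := by
    intro h
    have h1 := degree_pos hT hS
    rw [h] at h1
    simp at h1
  -- the linear form `B(p, p, X)`
  have hk : Bf T P P x ≠ 0 := by
    intro h
    let lin : MvPolynomial (Fin 6) ℂ := Bf T (fun i => C (p i)) (fun i => C (p i)) X
    have h1 : aeval x lin = 0 := by
      have h2 := map_Bg (aeval x : MvPolynomial (Fin 6) ℂ →ₐ[ℂ] M) T (fun i => C (p i))
        (fun i => C (p i)) X
      change aeval x lin = _ at h2
      rw [h2]
      have h3 : (fun i => aeval x (C (p i) : MvPolynomial (Fin 6) ℂ)) = P := by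
        funext i
        rw [aeval_C]
      have h4 : (fun i => aeval x (X i : MvPolynomial (Fin 6) ℂ)) = x := by
        funext i
        rw [aeval_X]
      rw [h3, h4]
      exact h
    have h2 : lin.IsHomogeneous 1 := by
      unfold lin Bf
      refine IsHomogeneous.sum _ _ _ fun i _ => IsHomogeneous.sum _ _ _ fun j _ =>
        IsHomogeneous.sum _ _ _ fun k _ => ?_
      have h := (((isHomogeneous_C (Fin 6) (T i j k)).mul (isHomogeneous_C (Fin 6) (p i))).mul
        (isHomogeneous_C (Fin 6) (p j))).mul (isHomogeneous_X ℂ k)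
      exact h
    have h3 : lin = 0 := eq_zero_of_dvd (frm_hom T) hF0 h2 (by norm_num) (hforms 1 lin h2 h1)
    apply hp
    apply hS
    intro i
    rw [smooth_iff, Bf_eq, swap13 hT, ← Bf_eq]
    have h4 := map_Bg (aeval (fun a => if a = i then (1 : ℂ) else 0) :
      MvPolynomial (Fin 6) ℂ →ₐ[ℂ] ℂ) T (fun i => C (p i)) (fun i => C (p i)) X
    change aeval _ lin = _ at h4
    rw [h3, map_zero] at h4
    have h5 : (fun j => aeval (fun a => if a = i then (1 : ℂ) else 0)
        (C (p j) : MvPolynomial (Fin 6) ℂ)) = p := by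
      funext j
      rw [aeval_C]
      rfl
    have h6 : (fun j => aeval (fun a => if a = i then (1 : ℂ) else 0)
        (X j : MvPolynomial (Fin 6) ℂ)) = (fun a => if a = i then (1 : ℂ) else 0) := by
      funext j
      rw [aeval_X]
    rw [h5, h6] at h4
    exact h4.symm
  -- the point of the line through `p` and `x`
  set x'' : Fin 6 → M := fun i => Bf T P P x * x i + (-Bf T P x x) * P i with hx''
  obtain ⟨t1, t2, t3⟩ := third hT P x hPPP hx x'' rfl
  have e1 : (fun i => Bf T lam lam x * x i - Bf T lam x x * lam i) =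
      (fun i => a ^ 2 * x'' i) := by
    funext i
    have f1 : Bf T lam lam x = a ^ 2 * Bf T P P x := by
      rw [hlam', Bf_eq, Bg_smul1, Bg_smul2, ← Bf_eq]
      ring
    have f2 : Bf T lam x x = a * Bf T P x x := by
      rw [hlam', Bf_eq, Bg_smul1, ← Bf_eq]
    rw [f1, f2, hlam i, hx'']
    ring
  rw [e1, ratio_smul _ (pow_ne_zero 2 ha)]
  have hb : ∃ b, x b ≠ 0 := by
    by_contra hcon
    push Not at hcon
    apply hk
    have : x = fun _ => 0 := funext hcon
    rw [this, Bf_eq, swap13 hT, Bg_zero1]
  -- forms which give the map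
  let G : (Fin 6 → ℂ) → Fin 6 → MvPolynomial (Fin 6) ℂ := fun p i =>
    Bf T (fun i => C (p i)) (fun i => C (p i)) X * X i +
      (-Bf T (fun i => C (p i)) X X) * C (p i)
  have hG : ∀ i, (G p i).IsHomogeneous 2 := by
    intro i
    refine IsHomogeneous.add ?_ ?_
    · refine IsHomogeneous.mul (m := 1) (n := 1) ?_ (isHomogeneous_X ℂ i)
      unfold Bf
      refine IsHomogeneous.sum _ _ _ fun i _ => IsHomogeneous.sum _ _ _ fun j _ =>
        IsHomogeneous.sum _ _ _ fun k _ => ?_
      have h := (((isHomogeneous_C (Fin 6) (T i j k)).mul (isHomogeneous_C (Fin 6) (p i))).mul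
        (isHomogeneous_C (Fin 6) (p j))).mul (isHomogeneous_X ℂ k)
      exact h
    · refine IsHomogeneous.mul (m := 2) (n := 0) (IsHomogeneous.neg ?_) (isHomogeneous_C _ _)
      unfold Bf
      refine IsHomogeneous.sum _ _ _ fun i _ => IsHomogeneous.sum _ _ _ fun j _ =>
        IsHomogeneous.sum _ _ _ fun k _ => ?_
      have h := (((isHomogeneous_C (Fin 6) (T i j k)).mul (isHomogeneous_C (Fin 6) (p i))).mul
        (isHomogeneous_X ℂ j)).mul (isHomogeneous_X ℂ k)
      exact h
  have hGv : ∀ (y : Fin 6 → M) (i : Fin 6), aeval y (G p i) =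
      Bf T P P y * y i + (-Bf T P y y) * P i := by
    intro y i
    have h3 : (fun i => aeval y (C (p i) : MvPolynomial (Fin 6) ℂ)) = P := by
      funext i
      rw [aeval_C]
    have h4 : (fun i => aeval y (X i : MvPolynomial (Fin 6) ℂ)) = y := by
      funext i
      rw [aeval_X]
    have f1 := map_Bg (aeval y : MvPolynomial (Fin 6) ℂ →ₐ[ℂ] M) T (fun i => C (p i))
      (fun i => C (p i)) X
    have f2 := map_Bg (aeval y : MvPolynomial (Fin 6) ℂ →ₐ[ℂ] M) T (fun i => C (p i)) X X
    rw [h3, h4] at f1 f2
    rw [map_add, map_mul, map_mul, map_neg, aeval_X, aeval_C, Bf_eq, Bf_eq, f1, f2]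
    rfl
  apply le_antisymm
  · exact ratio_le x x'' hb (G p) hG (fun i => (hGv x i).symm)
  · have h1 : (fun i => Bf T P P x ^ 3 * x i) = (fun i => aeval x'' (G p i)) := by
      funext i
      rw [hGv x'' i, Bf_eq T P P x'', t2, Bf_eq T P x'' x'', t3, ← Bf_eq, ← Bf_eq, hx'']
      ring
    have hb'' : ∃ b, x'' b ≠ 0 := by
      by_contra hcon
      push Not at hcon
      obtain ⟨b, hb⟩ := hb
      have h2 : Bf T P P x ^ 3 * x b = aeval x'' (G p b) := congrFun h1 b
      have h3 : x'' = fun _ => 0 := funext hcon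
      have h4 : aeval x'' (G p b) = 0 := by
        rw [hGv, h3, Bf_eq T P P, swap13 hT, Bg_zero1, Bf_eq T P, swap13 hT, Bg_zero1]
        ring
      rw [h4] at h2
      exact mul_ne_zero (pow_ne_zero 3 hk) hb h2
    have h2 := ratio_le x'' (fun i => Bf T P P x ^ 3 * x i) hb'' (G p) hG
      (fun i => congrFun h1 i)
    rw [ratio_smul _ (pow_ne_zero 3 hk)] at h2
    exact h2

theorem core (hCB : S_CB) (hANI : S_ANI)
    {T : Fin 6 → Fin 6 → Fin 6 → ℂ} (hT : SymT T) (hS : SmoothT T) (hN : NoPlaneT T)
    (hLF : LineFree (frm T))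
    {M : Type} [Field M] [Algebra ℂ M] (htr : Algebra.trdeg ℂ M = 4)
    (x : Fin 6 → M) (hx : Bf T x x x = 0)
    (hforms : ∀ (e : ℕ) (H : MvPolynomial (Fin 6) ℂ), H.IsHomogeneous e → aeval x H = 0 →
      frm T ∣ H)
    (hRR : ratioField x = ⊤)
    (L : IntermediateField ℂ M) (t : M) (ht : Transcendental L t)
    (lam Q Cc : Fin 6 → M) (hl : ∀ i, lam i ∈ L) (hQ : ∀ i, Q i ∈ L) (hC : ∀ i, Cc i ∈ L)
    (hexp : x = fun i => t ^ 2 * lam i + t * Q i + Cc i)
    (p q : Fin 6 → ℂ) (a b : M)
    (hlam : ∀ i, lam i = a * algebraMap ℂ M (p i) + b * algebraMap ℂ M (q i))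
    (hline : ∀ i j k : Fin 2, Bf T (![p, q] i) (![p, q] j) (![p, q] k) = 0)
    (hind : LinearIndependent ℂ ![p, q] ∨ b = 0) : False := by
  obtain ⟨h6, u, w, hu, hw, huw, hz⟩ := linear_case hT L t ht lam Q Cc hl hQ hC x hx hexp
  by_cases hl0 : lam = 0
  · -- a family of lines
    refine hLF M htr L t ht Q Cc hQ hC ?_ ?_
    · rw [aeval_frm]
      have h1 : (fun i => t * Q i + Cc i) = x := by
        rw [hexp]
        funext i
        rw [hl0, Pi.zero_apply, mul_zero, zero_add]
      rw [h1, hx]
    · have h1 : (fun i => t * Q i + Cc i) = x := by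
        rw [hexp]
        funext i
        rw [hl0, Pi.zero_apply, mul_zero, zero_add]
      rw [h1, hRR, IntermediateField.finrank_top]
      exact odd_one
  · have key : Odd (Module.finrank (ratioField fun i => Bf T lam lam x * x i -
        Bf T lam x x * lam i) M) := by
      rcases hind with hind | hb
      · obtain ⟨P, N, hPN, hNP, hP0, hP1⟩ := exists_mat p q hind
        have hT' : SymT (comp T P) := comp_sym hT P
        have hS' := smooth_co hT hS P N hPN hNP
        have hN' := noplane_co hT hN P N hPN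
        have hL' : LineT (comp T P) := by
          intro i j k hi hj hk
          have hrow : ∀ i : Fin 6, i.val < 2 → ∃ i' : Fin 2, P i = ![p, q] i' := by
            intro i hi
            have : i = 0 ∨ i = 1 := by omega
            rcases this with rfl | rfl
            · exact ⟨0, hP0⟩
            · exact ⟨1, hP1⟩
          obtain ⟨i', hi'⟩ := hrow i hi
          obtain ⟨j', hj'⟩ := hrow j hj
          obtain ⟨k', hk'⟩ := hrow k hk
          have := hline i' j' k'
          rw [← hi', ← hj', ← hk'] at this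
          exact this
        have hani := hANI (comp T P) hT' hS' hN' hL'
        have hxc : co P (co N x) = x := co_co N P hNP x
        have hforms' := forms_co hT P N hPN x hforms
        have hF0 : ∀ T' : Fin 6 → Fin 6 → Fin 6 → ℂ, SymT T' → SmoothT T' → frm T' ≠ 0 := by
          intro T' h1 h2 h
          have h3 := degree_pos h1 h2
          rw [h] at h3
          simp at h3
        have hb : ∃ b, x b ≠ 0 := by
          by_contra hcon
          push Not at hcon
          have h2 : aeval x (X 0 : MvPolynomial (Fin 6) ℂ) = 0 := by rw [aeval_X, hcon]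
          have h3 := eq_zero_of_dvd (frm_hom T) (hF0 T hT hS) (isHomogeneous_X ℂ (0 : Fin 6))
            (by norm_num) (hforms 1 _ (isHomogeneous_X _ _) h2)
          exact X_ne_zero _ h3
        have hRR' : ratioField (co N x) = ⊤ := by
          rw [ratio_co P N hPN hNP x hb, hRR]
        have hlam' : co P (co N lam) = lam := co_co N P hNP lam
        have hlamN : co N lam = fun i => if i = 0 then a else if i = 1 then b else 0 := by
          have h1 : co P (fun i => if i = 0 then a else if i = 1 then b else 0) = lam := by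
            funext j
            unfold co
            have h01 : P 0 j = p j := by rw [hP0]
            have h11 : P 1 j = q j := by rw [hP1]
            rw [hlam j, Fin.sum_univ_succ, Fin.sum_univ_succ, Finset.sum_eq_zero]
            · have h12 : (Fin.succ 0 : Fin 6) = 1 := rfl
              rw [h12, h01, h11]
              simp
            · intro i _
              have e1 : (i.succ.succ : Fin 6) ≠ 0 := Fin.succ_ne_zero _
              have e2 : (i.succ.succ : Fin 6) ≠ 1 := by
                intro h
                have := congrArg Fin.val h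
                simp at this
              simp only [if_neg e1, if_neg e2, zero_mul]
          rw [← h1, co_co P N hPN]
        obtain ⟨hk, hodd⟩ := hCB (comp T P) hT' hL' hani M htr (co N x) (by
            rw [Bf_co hT, hxc, hx])
          (forms_last hT' hS' (co N x) hforms') hRR' (co N lam) (by
            intro h
            apply hl0
            rw [← hlam', h, co_zero])
          (by
            intro i hi
            rw [hlamN]
            have e1 : i ≠ 0 := by
              rintro rfl
              simp at hi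
            have e2 : i ≠ 1 := by
              rintro rfl
              simp at hi
            simp only [if_neg e1, if_neg e2])
        rw [Bf_co hT, hxc, hlam'] at hk
        have h8 : (fun i => Bf (comp T P) (co N lam) (co N lam) (co N x) * co N x i -
            Bf (comp T P) (co N lam) (co N x) (co N x) * co N lam i) =
            co N (fun i => Bf T lam lam x * x i - Bf T lam x x * lam i) := by
          funext j
          rw [Bf_co hT, Bf_co hT, hxc, hlam']
          unfold co
          simp only [sub_mul, Finset.sum_sub_distrib, Finset.mul_sum, mul_assoc]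
        rw [h8] at hodd
        have hx'b : ∃ b, (fun i => Bf T lam lam x * x i - Bf T lam x x * lam i) b ≠ 0 := by
          by_contra hcon
          push Not at hcon
          have h9 : co N x 5 ≠ 0 := by
            intro h
            have h2 : aeval (co N x) (X 5 : MvPolynomial (Fin 6) ℂ) = 0 := by rw [aeval_X, h]
            have h3 := eq_zero_of_dvd (frm_hom _) (hF0 _ hT' hS') (isHomogeneous_X ℂ (5 : Fin 6))
              (by norm_num) (hforms' 1 _ (isHomogeneous_X _ _) h2)
            exact X_ne_zero _ h3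
          have h10 := congrFun h8 5
          have h11 : (fun i => Bf T lam lam x * x i - Bf T lam x x * lam i) = 0 := funext hcon
          rw [h11, co_zero, Pi.zero_apply] at h10
          have h12 : co N lam 5 = 0 := by
            rw [hlamN]
            simp
          rw [h12, mul_zero, sub_zero, Bf_co hT, hxc, hlam'] at h10
          exact mul_ne_zero hk h9 h10
        rw [ratio_co P N hPN hNP _ hx'b] at hodd
        exact hodd
      · have hlam1 : ∀ i, lam i = a * algebraMap ℂ M (p i) := by
          intro i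
          rw [hlam, hb, zero_mul, add_zero]
        have ha : a ≠ 0 := by
          rintro rfl
          apply hl0
          funext i
          rw [hlam1, zero_mul]
          rfl
        have hp : p ≠ 0 := by
          rintro rfl
          apply hl0
          funext i
          rw [hlam1, Pi.zero_apply, map_zero, mul_zero]
          rfl
        rw [point_case hT hS x hx hforms p hp (hline 0 0 0) a ha lam hlam1, hRR,
          IntermediateField.finrank_top]
        exact odd_one
    rw [huw] at key
    refine hLF M htr L t ht u w hu hw ?_ key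
    rw [aeval_frm]
    exact hz

end

end Pool.Agent.Y201.C3
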