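import Mathlib
import Pool.Agent.Y201.C3.Cases
import Pool.Agent.Y246.C3.Cb

/-! # Project C3: from polynomials of degree three to conics through a base point -/

set_option autoImplicit false
set_option linter.unusedSectionVars false

namespace Pool.Agent.Y201.C3

open MvPolynomial Pool.Agent.TH314.PD

noncomputable section

/-- restriction of a cubic form to a line through a constant point -/
theorem expand_line {σ : Type} [Fintype σ] [DecidableEq σ] {R : Type} [CommRing R] [Algebra ℂ R]
    (g : MvPolynomial σ ℂ) (hg : g.IsHomogeneous 3) (t : R) (b : σ → ℂ) (m : σ → R) :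
    aeval (fun i => t * algebraMap ℂ R (b i) + m i) g =
      t ^ 3 * algebraMap ℂ R (eval b g) +
      t ^ 2 * ∑ l, m l * algebraMap ℂ R (eval b (pderiv l g)) +
      t * ∑ l, algebraMap ℂ R (b l) * aeval m (pderiv l g) + aeval m g := by
  obtain ⟨T, hT, rfl⟩ := exists_tri g hg
  have hev : ∀ (p : MvPolynomial σ ℂ), eval b p = aeval b p := fun p => by
    rw [MvPolynomial.aeval_def, MvPolynomial.eval₂_eq_eval_map]
    simp
  set b' : σ → R := fun i => algebraMap ℂ R (b i) with hb'
  have h0 : algebraMap ℂ R (eval b (Bg T X X X)) = Bg T b' b' b' := by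
    rw [hev, aeval_frmG, ← Bg_alg]
  have h1 : ∀ l, algebraMap ℂ R (eval b (pderiv l (Bg T X X X : MvPolynomial σ ℂ))) =
      3 * Bg T (fun i => if i = l then 1 else 0) b' b' := by
    intro l
    rw [hev, pderiv_frmG hT, map_mul, map_ofNat, ← Bg_alg]
    congr 2
    funext i
    by_cases h : i = l <;> simp [h]
  have h2 : ∑ l, m l * algebraMap ℂ R (eval b (pderiv l (Bg T X X X : MvPolynomial σ ℂ))) =
      3 * Bg T m b' b' := by
    have e1 : (fun i => ∑ l, m l * (if i = l then (1 : R) else 0)) = m := by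
      funext i
      simp
    have e2 : Bg T m b' b' = ∑ l, m l * Bg T (fun i => if i = l then 1 else 0) b' b' := by
      conv_lhs => rw [← e1]
      rw [Bg_sum1]
      exact Finset.sum_congr rfl fun l _ => Bg_smul1 T (m l) _ _ _
    rw [e2, Finset.mul_sum]
    exact Finset.sum_congr rfl fun l _ => by rw [h1]; ring
  have h3 : ∑ l, algebraMap ℂ R (b l) * aeval m (pderiv l (Bg T X X X : MvPolynomial σ ℂ)) =
      3 * Bg T b' m m := by
    have e1 : (fun i => ∑ l, b' l * (if i = l then (1 : R) else 0)) = b' := by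
      funext i
      simp
    have e2 : Bg T b' m m = ∑ l, b' l * Bg T (fun i => if i = l then 1 else 0) m m := by
      conv_lhs => rw [← e1]
      rw [Bg_sum1]
      exact Finset.sum_congr rfl fun l _ => Bg_smul1 T (b' l) _ _ _
    rw [e2, Finset.mul_sum]
    exact Finset.sum_congr rfl fun l _ => by rw [pderiv_frmG hT]; ring
  rw [h0, h2, h3, aeval_frmG, aeval_frmG]
  simp only [Bg_add1, Bg_add2, Bg_add3, Bg_smul1, Bg_smul2, Bg_smul3]
  rw [swap13 hT b' b' m, Bg_swap12 hT b' m b', swap13 hT m m b', Bg_swap12 hT m b' m]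
  ring

theorem euler0 {σ : Type} [Fintype σ] [DecidableEq σ] (g : MvPolynomial σ ℂ)
    (hg : g.IsHomogeneous 3) (b : σ → ℂ) :
    ∑ l, b l * eval b (pderiv l g) = 3 * eval b g := by
  have h := congrArg (eval b) hg.sum_X_mul_pderiv
  rw [map_sum, nsmul_eq_mul, map_mul] at h
  simp only [map_mul, eval_X] at h
  rw [h]
  norm_num

/-- homogenisation of degree three -/
theorem homog3 {n : ℕ} (A : MvPolynomial (Fin n) ℂ) (hA : A.totalDegree ≤ 3) :
    ∃ A' : MvPolynomial (Fin (n + 1)) ℂ, A'.IsHomogeneous 3 ∧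
      ∀ {R : Type} [CommRing R] [Algebra ℂ R] (u : Fin n → R),
        aeval (Fin.cons 1 u : Fin (n + 1) → R) A' = aeval u A := by
  obtain ⟨A', h1, h2⟩ := homogenize A
  refine ⟨X 0 ^ (3 - A.totalDegree) * A', ?_, ?_⟩
  · have h3 := ((isHomogeneous_X ℂ (0 : Fin (n + 1))).pow (3 - A.totalDegree)).mul h1
    rwa [show 1 * (3 - A.totalDegree) + A.totalDegree = 3 by omega] at h3
  · intro R _ _ u
    rw [map_mul, map_pow, aeval_X, Fin.cons_zero, one_pow, one_mul, h2]

/-- a form which vanishes at the generic point of the chart is zero -/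
theorem generic_zero {n e : ℕ} (H : MvPolynomial (Fin (n + 1)) ℂ) (hH : H.IsHomogeneous e)
    (h : aeval (Fin.cons 1 X : Fin (n + 1) → MvPolynomial (Fin n) ℂ) H = 0) : H = 0 := by
  have h1 : ∀ z : Fin (n + 1) → ℂ, eval z (X 0 * H) = 0 := by
    intro z
    rw [map_mul, eval_X]
    by_cases hz : z 0 = 0
    · rw [hz, zero_mul]
    · have h2 : z = fun i => z 0 * (Fin.cons 1 (fun l : Fin n => z l.succ / z 0) :
          Fin (n + 1) → ℂ) i := by
        funext i
        refine Fin.cases ?_ (fun l => ?_) i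
        · rw [Fin.cons_zero, mul_one]
        · rw [Fin.cons_succ]
          field_simp
      have h3 := congrArg (aeval (fun l : Fin n => z l.succ / z 0)) h
      rw [map_zero] at h3
      have h4 : aeval (Fin.cons 1 (fun l : Fin n => z l.succ / z 0) : Fin (n + 1) → ℂ) H = 0 := by
        rw [← h3]
        have h5 : (aeval (fun l : Fin n => z l.succ / z 0)).comp
            (aeval (Fin.cons 1 X : Fin (n + 1) → MvPolynomial (Fin n) ℂ)) =
            (aeval (Fin.cons 1 (fun l : Fin n => z l.succ / z 0) : Fin (n + 1) → ℂ) :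
              MvPolynomial (Fin (n + 1)) ℂ →ₐ[ℂ] ℂ) := by
          apply algHom_ext
          intro i
          rw [AlgHom.comp_apply, aeval_X, aeval_X]
          refine Fin.cases ?_ (fun l => ?_) i
          · rw [Fin.cons_zero, Fin.cons_zero, map_one]
          · rw [Fin.cons_succ, Fin.cons_succ, aeval_X]
        rw [← h5]
        rfl
      have h6 : eval z H = aeval z H := by
        rw [MvPolynomial.aeval_def, MvPolynomial.eval₂_eq_eval_map]
        simp
      rw [h6, h2, aeval_smul_form hH, h4, mul_zero, mul_zero]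
  have h7 : X 0 * H = 0 := MvPolynomial.funext fun z => by rw [h1, map_zero]
  exact (mul_eq_zero.1 h7).resolve_left (X_ne_zero 0)

/-- a totally isotropic family spans at most a line -/
theorem wspan {T : Fin 6 → Fin 6 → Fin 6 → ℂ} (hT : SymT T) (hN : NoPlaneT T)
    (w : Fin 5 → Fin 6 → ℂ) (hw : ∀ a b c, Bf T (w a) (w b) (w c) = 0) :
    ∃ (p q : Fin 6 → ℂ) (c d : Fin 5 → ℂ), (∀ l i, w l i = c l * p i + d l * q i) ∧
      (∀ i j k : Fin 2, Bf T (![p, q] i) (![p, q] j) (![p, q] k) = 0) ∧
      (LinearIndependent ℂ ![p, q] ∨ ∀ l, d l = 0) := by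
  by_cases h0 : ∀ l, w l = 0
  · refine ⟨0, 0, 0, 0, ?_, ?_, Or.inr fun _ => rfl⟩
    · intro l i
      rw [h0]
      simp
    · intro i j k
      have h1 : ∀ i : Fin 2, (![0, 0] : Fin 2 → Fin 6 → ℂ) i = fun _ => 0 := by
        intro i
        fin_cases i <;> rfl
      rw [h1, Bf_eq, Bg_zero1]
  · push Not at h0
    obtain ⟨l0, hl0⟩ := h0
    by_cases h1 : ∀ l, ∃ c : ℂ, w l = c • w l0
    · choose c hc using h1
      refine ⟨w l0, w l0, c, 0, ?_, ?_, Or.inr fun _ => rfl⟩
      · intro l i
        rw [hc l]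
        simp
      · intro i j k
        have h2 : ∀ i : Fin 2, (![w l0, w l0] : Fin 2 → Fin 6 → ℂ) i = w l0 := by
          intro i
          fin_cases i <;> rfl
        rw [h2, h2, h2, hw]
    · push Not at h1
      obtain ⟨l1, hl1⟩ := h1
      have hind : LinearIndependent ℂ ![w l0, w l1] := by
        rw [LinearIndependent.pair_iff' hl0]
        exact fun a h => hl1 a h.symm
      have hspan : ∀ l, w l ∈ Submodule.span ℂ (Set.range ![w l0, w l1]) := by
        intro l
        by_contra hcon
        have h3 : LinearIndependent ℂ (Fin.cons (w l) ![w l0, w l1] : Fin 3 → Fin 6 → ℂ) :=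
          linearIndependent_finCons.2 ⟨hind, hcon⟩
        obtain ⟨i, j, k, h4⟩ := hN _ h3
        apply h4
        have h5 : ∀ i : Fin 3, ∃ a, (Fin.cons (w l) ![w l0, w l1] : Fin 3 → Fin 6 → ℂ) i = w a := by
          intro i
          fin_cases i
          · exact ⟨l, rfl⟩
          · exact ⟨l0, rfl⟩
          · exact ⟨l1, rfl⟩
        obtain ⟨a, ha⟩ := h5 i
        obtain ⟨b, hb⟩ := h5 j
        obtain ⟨c, hc⟩ := h5 k
        rw [ha, hb, hc, hw]
      have h6 : ∀ l, ∃ c d : ℂ, ∀ i, w l i = c * w l0 i + d * w l1 i := by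
        intro l
        have h7 := hspan l
        rw [Submodule.mem_span_range_iff_exists_fun] at h7
        obtain ⟨c, hc⟩ := h7
        refine ⟨c 0, c 1, fun i => ?_⟩
        rw [← hc, Fin.sum_univ_two]
        rfl
      choose c d hcd using h6
      refine ⟨w l0, w l1, c, d, hcd, ?_, Or.inl hind⟩
      intro i j k
      have h2 : ∀ i : Fin 2, ∃ a, (![w l0, w l1] : Fin 2 → Fin 6 → ℂ) i = w a := by
        intro i
        fin_cases i
        · exact ⟨l0, rfl⟩
        · exact ⟨l1, rfl⟩
      obtain ⟨a, ha⟩ := h2 i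
      obtain ⟨b, hb⟩ := h2 j
      obtain ⟨c, hc⟩ := h2 k
      rw [ha, hb, hc, hw]

end

end Pool.Agent.Y201.C3
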