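import Mathlib
import Pool.Agent.Y201.C3.Glue

/-! # Project C3: main argument -/

set_option autoImplicit false
set_option linter.unusedSectionVars false

namespace Pool.Agent.Y201.C3

open MvPolynomial Pool.Agent.TH314.PD

noncomputable section

theorem ev_aeval {σ : Type} (b : σ → ℂ) (p : MvPolynomial σ ℂ) : eval b p = aeval b p := by
  rw [MvPolynomial.aeval_def, MvPolynomial.eval₂_eq_eval_map]
  simp

/-- **Main argument in homogeneous form**: cubic forms in five variables, generic point `s`. -/
theorem main_hom (hCB : S_CB) (hANI : S_ANI) (hBASE : S_BASE)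
    {T : Fin 6 → Fin 6 → Fin 6 → ℂ} (hT : SymT T) (hS : SmoothT T) (hN : NoPlaneT T)
    (hLF : LineFree (frm T))
    {M : Type} [Field M] [Algebra ℂ M] (htr : Algebra.trdeg ℂ M = 4)
    (s : Fin 5 → M)
    (hs : ∀ (e : ℕ) (H : MvPolynomial (Fin 5) ℂ), H.IsHomogeneous e → aeval s H = 0 → H = 0)
    (hgen : ratioField s = ⊤)
    (G : Fin 6 → MvPolynomial (Fin 5) ℂ) (hG : ∀ i, (G i).IsHomogeneous 3)
    (hFG : aeval G (frm T) = 0)
    (hforms : ∀ (e : ℕ) (H : MvPolynomial (Fin 6) ℂ), H.IsHomogeneous e →
      aeval (fun i => aeval s (G i)) H = 0 → frm T ∣ H)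
    (hRR : ratioField (fun i => aeval s (G i)) = ⊤) : False := by
  classical
  have hF0 : frm T ≠ 0 := by
    intro h
    have h3 := degree_pos hT hS
    rw [h] at h3
    simp at h3
  -- the base point
  obtain ⟨b, hb0, hb⟩ := hBASE M s hs (frm T) (frm_hom T) hF0 G hG hFG (fun i j => by
    rw [hRR]
    trivial)
  obtain ⟨k, hk⟩ : ∃ k, b k ≠ 0 := by
    by_contra hcon
    push Not at hcon
    exact hb0 (funext hcon)
  have inj : Function.Injective (algebraMap ℂ M) := (algebraMap ℂ M).injective
  have hbk : algebraMap ℂ M (b k) ≠ 0 := (map_ne_zero _).2 hk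
  set θ : M := s k / algebraMap ℂ M (b k) with hθ
  set m : Fin 5 → M := fun i => s i - θ * algebraMap ℂ M (b i) with hm
  have hmk : m k = 0 := by
    rw [hm]
    simp only
    rw [hθ, div_mul_cancel₀ _ hbk, sub_self]
  have hmne : ∀ j, j ≠ k → m j ≠ 0 := by
    intro j hj h
    have h1 : aeval s (C (b k) * X j - C (b j) * X k : MvPolynomial (Fin 5) ℂ) = 0 := by
      rw [map_sub, map_mul, map_mul, aeval_C, aeval_C, aeval_X, aeval_X]
      have h2 : s j - θ * algebraMap ℂ M (b j) = 0 := h
      have h3 : s j = θ * algebraMap ℂ M (b j) := sub_eq_zero.1 h2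
      rw [h3, hθ]
      field_simp
      ring
    have h2 := hs 1 _ (((isHomogeneous_C _ _).mul (isHomogeneous_X ℂ j)).sub
      ((isHomogeneous_C _ _).mul (isHomogeneous_X ℂ k))) h1
    have h3 := congrArg (eval (Pi.single j (1 : ℂ))) h2
    rw [map_sub, map_mul, map_mul, eval_C, eval_C, eval_X, eval_X, map_zero, Pi.single_eq_same,
      Pi.single_eq_of_ne (Ne.symm hj), mul_zero, mul_one, sub_zero] at h3
    exact hk h3
  set q : Fin 4 → M := fun a => m (k.succAbove a) with hq
  have hq3 : q 3 ≠ 0 := hmne _ (Fin.succAbove_ne k 3)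
  set mj : M := q 3 with hmj
  set L : IntermediateField ℂ M := ratioField q with hL
  have hmL : ∀ i, m i / mj ∈ L := by
    intro i
    by_cases hi : i = k
    · rw [hi, hmk, zero_div]
      exact zero_mem _
    · obtain ⟨a, rfl⟩ := Fin.exists_succAbove_eq hi
      exact IntermediateField.subset_adjoin _ _ ⟨a, 3, rfl⟩
  set t : M := θ / mj with ht
  have hsm : ∀ i, s i / mj = t * algebraMap ℂ M (b i) + m i / mj := by
    intro i
    rw [ht, hm]
    field_simp
    ring
  have htL : Transcendental L t := by
    intro halg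
    refine Pool.Agent.Y246.C3.not_alg htr q hq3 ?_
    -- `M` is generated over `L` by `t`
    have h1 : IntermediateField.adjoin L ({t} : Set M) = ⊤ := by
      have h2 : ratioField s ≤ (IntermediateField.adjoin L ({t} : Set M)).restrictScalars ℂ := by
        unfold ratioField
        rw [IntermediateField.adjoin_le_iff]
        rintro z ⟨i, j, rfl⟩
        have h3 : ∀ i, s i / mj ∈ IntermediateField.adjoin L ({t} : Set M) := by
          intro i
          rw [hsm]
          refine add_mem (mul_mem (IntermediateField.mem_adjoin_simple_self L t) ?_) ?_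
          · have := (IntermediateField.adjoin L ({t} : Set M)).algebraMap_mem
              (algebraMap ℂ L (b i))
            exact this
          · have := (IntermediateField.adjoin L ({t} : Set M)).algebraMap_mem ⟨_, hmL i⟩
            exact this
        have h4 : s i / s j = (s i / mj) / (s j / mj) := by
          rw [div_div_div_cancel_right₀ hq3]
        rw [h4]
        exact div_mem (h3 i) (h3 j)
      rw [hgen] at h2
      rw [eq_top_iff]
      intro z _
      exact h2 (IntermediateField.mem_top (F := ℂ) (x := z))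
    have h5 : Algebra.IsAlgebraic L (IntermediateField.adjoin L ({t} : Set M)) := by
      have : IsIntegral L t := halg.isIntegral
      have := IntermediateField.isAlgebraic_adjoin_simple this
      exact this
    rw [h1] at h5
    exact (IntermediateField.topEquiv (F := L) (E := M)).isAlgebraic
  -- the point
  set mh : Fin 5 → M := fun i => m i / mj with hmh
  set x : Fin 6 → M := fun i => aeval (fun l => t * algebraMap ℂ M (b l) + mh l) (G i) with hx
  have hxs : x = fun i => (mj⁻¹) ^ 3 * aeval s (G i) := by
    funext i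
    rw [← aeval_smul_form (hG i), hx]
    simp only
    congr 2
    funext l
    rw [hmh]
    simp only
    rw [← hsm, div_eq_mul_inv, mul_comm]
  have hmj3 : (mj⁻¹) ^ 3 ≠ 0 := pow_ne_zero 3 (inv_ne_zero hq3)
  have hRRx : ratioField x = ⊤ := by rw [hxs, ratio_smul _ hmj3, hRR]
  have hformsx : ∀ (e : ℕ) (H : MvPolynomial (Fin 6) ℂ), H.IsHomogeneous e → aeval x H = 0 →
      frm T ∣ H := by
    intro e H hH h
    rw [hxs, aeval_smul_form hH] at h
    exact hforms e H hH ((mul_eq_zero.1 h).resolve_left (pow_ne_zero e hmj3))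
  have hx0 : Bf T x x x = 0 := by
    rw [← aeval_frm, hxs, aeval_smul_form (frm_hom T)]
    have h1 : aeval (fun i => aeval s (G i)) (frm T) = aeval s (aeval G (frm T)) := by
      have h2 : (aeval s).comp (aeval G) =
          (aeval (fun i => aeval s (G i)) : MvPolynomial (Fin 6) ℂ →ₐ[ℂ] M) := by
        apply algHom_ext
        intro i
        rw [AlgHom.comp_apply, aeval_X, aeval_X]
      rw [← h2]
      rfl
    rw [h1, hFG, map_zero, mul_zero]
  -- expansion
  set w : Fin 5 → Fin 6 → ℂ := fun l i => eval b (pderiv l (G i)) with hw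
  set lam : Fin 6 → M := fun i => ∑ l, mh l * algebraMap ℂ M (w l i) with hlam
  set Q : Fin 6 → M := fun i => ∑ l, algebraMap ℂ M (b l) * aeval mh (pderiv l (G i)) with hQ
  set Cc : Fin 6 → M := fun i => aeval mh (G i) with hC
  have hexp : x = fun i => t ^ 2 * lam i + t * Q i + Cc i := by
    funext i
    rw [hx]
    simp only
    rw [expand_line (G i) (hG i), hb, map_zero, mul_zero, zero_add]
  have hLa : ∀ p : MvPolynomial (Fin 5) ℂ, aeval mh p ∈ L := by
    intro p
    induction p using MvPolynomial.induction_on with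
    | C a =>
      rw [aeval_C]
      exact L.algebraMap_mem a
    | add f g hf hg =>
      rw [map_add]
      exact add_mem hf hg
    | mul_X f i hf =>
      rw [map_mul, aeval_X]
      exact mul_mem hf (hmL i)
  have hl : ∀ i, lam i ∈ L := fun i => sum_mem fun l _ => mul_mem (hmL l) (L.algebraMap_mem _)
  have hQL : ∀ i, Q i ∈ L := fun i => sum_mem fun l _ => mul_mem (L.algebraMap_mem _) (hLa _)
  have hCL : ∀ i, Cc i ∈ L := fun i => hLa _
  obtain ⟨h6, -⟩ := linear_case hT L t htL lam Q Cc hl hQL hCL x hx0 hexp
  -- the span of the derivatives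
  have hbw : ∀ i, ∑ l, b l * w l i = 0 := by
    intro i
    rw [hw]
    simp only
    rw [euler0 (G i) (hG i) b, hb, mul_zero]
  have hlam2 : lam = fun i => ∑ l, (s l / mj) * algebraMap ℂ M (w l i) := by
    funext i
    have h1 : ∑ l, (s l / mj) * algebraMap ℂ M (w l i) =
        t * algebraMap ℂ M (∑ l, b l * w l i) + ∑ l, mh l * algebraMap ℂ M (w l i) := by
      rw [map_sum, Finset.mul_sum, ← Finset.sum_add_distrib]
      refine Finset.sum_congr rfl fun l _ => ?_
      rw [hsm, map_mul]
      ring
    rw [h1, hbw, map_zero, mul_zero, zero_add]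
  have hww : ∀ a b c, Bf T (w a) (w b) (w c) = 0 := by
    have h1 : Bg (comp T w) (fun l => s l / mj) (fun l => s l / mj) (fun l => s l / mj) = 0 := by
      rw [Bg_comp hT, ← hlam2]
      exact h6
    have h2 : aeval s (Bg (comp T w) X X X : MvPolynomial (Fin 5) ℂ) = 0 := by
      rw [aeval_frmG]
      have h3 : s = fun l => mj * (s l / mj) := by
        funext l
        field_simp
      rw [h3, Bg_smul1, Bg_smul2, Bg_smul3, h1]
      ring
    have h3 : (Bg (comp T w) X X X : MvPolynomial (Fin 5) ℂ) = 0 := by
      refine hs 3 _ ?_ h2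
      unfold Bg
      refine IsHomogeneous.sum _ _ _ fun i _ => IsHomogeneous.sum _ _ _ fun j _ =>
        IsHomogeneous.sum _ _ _ fun k _ => ?_
      have h := (((isHomogeneous_C (Fin 5) (comp T w i j k)).mul (isHomogeneous_X ℂ i)).mul
        (isHomogeneous_X ℂ j)).mul (isHomogeneous_X ℂ k)
      exact h
    have h4 : ∀ z : Fin 5 → ℂ, Bg (comp T w) z z z = 0 := by
      intro z
      rw [← aeval_frmG, h3, map_zero]
    intro a b c
    have h5 := polar (comp_sym hT w) h4 (fun i => if i = a then (1 : ℂ) else 0)
      (fun i => if i = b then (1 : ℂ) else 0) (fun i => if i = c then (1 : ℂ) else 0)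
    rw [← T_eq] at h5
    exact h5
  obtain ⟨p, q', c, d, hcd, hline, hind⟩ := wspan hT hN w hww
  refine core hCB hANI hT hS hN hLF htr x hx0 hformsx hRRx L t htL lam Q Cc hl hQL hCL hexp
    p q' (∑ l, mh l * algebraMap ℂ M (c l)) (∑ l, mh l * algebraMap ℂ M (d l)) ?_ hline ?_
  · intro i
    rw [hlam]
    simp only
    rw [Finset.sum_mul, Finset.sum_mul, ← Finset.sum_add_distrib]
    refine Finset.sum_congr rfl fun l _ => ?_
    rw [hcd, map_add, map_mul, map_mul]
    ring
  · rcases hind with h | h
    · exact Or.inl h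
    · right
      refine Finset.sum_eq_zero fun l _ => ?_
      rw [h, map_zero, mul_zero]

end

end Pool.Agent.Y201.C3
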